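import Mathlib

set_option autoImplicit false

namespace Pool.Agent.H57R2.AM

open Subgroup

/-- A normal subgroup of prime order, with complement `Q`. An element of order prime to `p` that centralises the normal
subgroup lies in every complement. -/
lemma mem_compl_of_comm {G : Type*} [Group G] [Finite G] {p : ℕ}
    (P Q : Subgroup G) (hPc : Nat.card P = p) (hPQ : P.IsComplement' Q)
    (g : G) (hg : (orderOf g).Coprime p) (hcomm : ∀ u ∈ P, g * u = u * g) : g ∈ Q := by
  obtain ⟨⟨v, q⟩, hvq⟩ := (hPQ : Function.Bijective _).2 g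
  simp only at hvq
  have hq : (q : G) = (v : G)⁻¹ * g := by rw [← hvq]; group
  have hvg : (v : G) * g = g * v := (hcomm v v.2).symm
  have hvqc : Commute (v : G) (q : G) := by
    show (v : G) * q = q * v
    rw [hq]
    calc (v : G) * ((v : G)⁻¹ * g) = g := by group
      _ = (v : G)⁻¹ * (v * g) := by group
      _ = (v : G)⁻¹ * (g * v) := by rw [hvg]
      _ = (v : G)⁻¹ * g * v := by group
  have hpow : (v : G) ^ (orderOf g) * (q : G) ^ (orderOf g) = 1 := by
    rw [← hvqc.mul_pow, hvq, pow_orderOf_eq_one]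
  have h1 : (v : G) ^ (orderOf g) ∈ Q := by
    have : (v : G) ^ (orderOf g) = ((q : G) ^ (orderOf g))⁻¹ := eq_inv_of_mul_eq_one_left hpow
    rw [this]
    exact Q.inv_mem (Q.pow_mem q.2 _)
  have h2 : (v : G) ^ (orderOf g) = 1 := by
    have hdis := hPQ.disjoint
    exact (Subgroup.disjoint_def.mp hdis) (P.pow_mem v.2 _) h1
  have h3 : (v : G) ^ p = 1 := by
    have : v ^ (Nat.card P) = 1 := pow_card_eq_one'
    rw [hPc] at this
    exact_mod_cast congrArg Subtype.val this
  have h4 : (v : G) = 1 := by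
    have h5 : orderOf (v : G) ∣ Nat.gcd (orderOf g) p := Nat.dvd_gcd (orderOf_dvd_of_pow_eq_one h2) (orderOf_dvd_of_pow_eq_one h3)
    rw [hg.gcd_eq_one, Nat.dvd_one, orderOf_eq_one_iff] at h5
    exact h5
  rw [← hvq, h4, one_mul]
  exact q.2

/-- If `g` inverts the normal subgroup `P` of odd order `p`, then `g` lies in some complement. -/
lemma exists_compl_of_inv {G : Type*} [Group G] [Finite G] {p : ℕ} (hodd : Odd p)
    (P Q : Subgroup G) (hPc : Nat.card P = p) (hPQ : P.IsComplement' Q)
    (hco : (Nat.card P).Coprime (Nat.card Q))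
    (g : G) (hinv : ∀ u ∈ P, g * u = u⁻¹ * g) :
    ∃ Q' : Subgroup G, P.IsComplement' Q' ∧ g ∈ Q' := by
  obtain ⟨⟨v, q⟩, hvq⟩ := (hPQ : Function.Bijective _).2 g
  simp only at hvq
  have h3 : (v : G) ^ p = 1 := by
    have : v ^ (Nat.card P) = 1 := pow_card_eq_one'
    rw [hPc] at this
    exact_mod_cast congrArg Subtype.val this
  obtain ⟨k, hk⟩ := hodd
  -- u with u^2 v = 1
  set u : G := (v : G) ^ k with hu
  have huP : u ∈ P := P.pow_mem v.2 _
  have hu2 : u * u * v = 1 := by
    rw [hu, ← pow_add, ← pow_succ, ← h3, hk]; congr 1; ring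
  refine ⟨Q.map (MulAut.conj u⁻¹).toMonoidHom, ?_, ?_⟩
  · apply Subgroup.isComplement'_of_coprime
    · rw [Subgroup.card_map_of_injective (MulAut.conj u⁻¹).injective]
      exact hPQ.card_mul
    · rw [Subgroup.card_map_of_injective (MulAut.conj u⁻¹).injective]
      exact hco
  · refine ⟨q, q.2, ?_⟩
    show u⁻¹ * (q : G) * u⁻¹⁻¹ = g
    rw [inv_inv]
    -- q u = ? ; g = v q
    have hq : (q : G) = (v : G)⁻¹ * g := by rw [← hvq]; group
    have hvu : (v : G) * u = u * v := by rw [hu]; exact ((Commute.refl (v : G)).pow_right k)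
    have e1 : u⁻¹ * ((v : G)⁻¹ * g) * u = u⁻¹ * (v : G)⁻¹ * (g * u) := by group
    rw [hq, e1, hinv u huP]
    have e2 : u⁻¹ * (v : G)⁻¹ * (u⁻¹ * g) = (u * v * u)⁻¹ * g := by group
    have e3 : u * (v : G) * u = 1 := by rw [mul_assoc, hvu, ← mul_assoc]; exact hu2
    rw [e2, e3]; group

/-- if the product of a family of group elements is one and all but one of them lie in a
subgroup then all of them do -/
lemma all_mem_of_prod_three {G : Type*} [Group G] (Q : Subgroup G) (x : Fin 3 → G)
    (hprod : x 0 * x 1 * x 2 = 1) (i : Fin 3) (h : ∀ j, j ≠ i → x j ∈ Q) : ∀ j, x j ∈ Q := by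
  have key : x i ∈ Q := by
    fin_cases i
    · have h1 := h 1 (by decide)
      have h2 := h 2 (by decide)
      have : x 0 = (x 2)⁻¹ * (x 1)⁻¹ := by
        have : x 0 = (x 1 * x 2)⁻¹ := eq_inv_of_mul_eq_one_left (by rw [← mul_assoc]; exact hprod)
        rw [this, mul_inv_rev]
      show x 0 ∈ Q
      rw [this]
      exact Q.mul_mem (Q.inv_mem h2) (Q.inv_mem h1)
    · have h0 := h 0 (by decide)
      have h2 := h 2 (by decide)
      have : x 1 = (x 0)⁻¹ * (x 2)⁻¹ := by
        have h3 : x 0 * x 1 = (x 2)⁻¹ := eq_inv_of_mul_eq_one_left hprod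
        rw [← h3]; group
      show x 1 ∈ Q
      rw [this]
      exact Q.mul_mem (Q.inv_mem h0) (Q.inv_mem h2)
    · have h0 := h 0 (by decide)
      have h1 := h 1 (by decide)
      have : x 2 = (x 0 * x 1)⁻¹ := eq_inv_of_mul_eq_one_right hprod
      show x 2 ∈ Q
      rw [this]
      exact Q.inv_mem (Q.mul_mem h0 h1)
  intro j
  by_cases hj : j = i
  · rw [hj]; exact key
  · exact h j hj

lemma all_mem_of_prod_four {G : Type*} [Group G] (Q : Subgroup G) (x : Fin 4 → G)
    (hprod : x 0 * x 1 * x 2 * x 3 = 1) (i : Fin 4) (h : ∀ j, j ≠ i → x j ∈ Q) : ∀ j, x j ∈ Q := by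
  have key : x i ∈ Q := by
    fin_cases i
    · have h1 := h 1 (by decide)
      have h2 := h 2 (by decide)
      have h3 := h 3 (by decide)
      have : x 0 = (x 1 * x 2 * x 3)⁻¹ :=
        eq_inv_of_mul_eq_one_left (by rw [← hprod]; group)
      show x 0 ∈ Q
      rw [this]
      exact Q.inv_mem (Q.mul_mem (Q.mul_mem h1 h2) h3)
    · have h0 := h 0 (by decide)
      have h2 := h 2 (by decide)
      have h3 := h 3 (by decide)
      have : x 1 = (x 0)⁻¹ * (x 2 * x 3)⁻¹ := by
        have h4 : x 0 * x 1 = (x 2 * x 3)⁻¹ := eq_inv_of_mul_eq_one_left (by rw [← hprod]; group)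
        rw [← h4]; group
      show x 1 ∈ Q
      rw [this]
      exact Q.mul_mem (Q.inv_mem h0) (Q.inv_mem (Q.mul_mem h2 h3))
    · have h0 := h 0 (by decide)
      have h1 := h 1 (by decide)
      have h3 := h 3 (by decide)
      have : x 2 = (x 0 * x 1)⁻¹ * (x 3)⁻¹ := by
        have h4 : x 0 * x 1 * x 2 = (x 3)⁻¹ := eq_inv_of_mul_eq_one_left hprod
        rw [← h4]; group
      show x 2 ∈ Q
      rw [this]
      exact Q.mul_mem (Q.inv_mem (Q.mul_mem h0 h1)) (Q.inv_mem h3)
    · have h0 := h 0 (by decide)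
      have h1 := h 1 (by decide)
      have h2 := h 2 (by decide)
      have : x 3 = (x 0 * x 1 * x 2)⁻¹ := eq_inv_of_mul_eq_one_right hprod
      show x 3 ∈ Q
      rw [this]
      exact Q.inv_mem (Q.mul_mem (Q.mul_mem h0 h1) h2)
  intro j
  by_cases hj : j = i
  · rw [hj]; exact key
  · exact h j hj

/-- The main obstruction: a finite group with a normal Sylow subgroup `P` of odd prime order `p` cannot be
generated by elements of order prime to `p` each of which centralises or inverts `P`, at most two of them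
inverting, such that any subgroup containing all but one of them contains all. -/
lemma no_normal_sylow {G : Type*} [Group G] [Finite G] {p : ℕ} (hp : p.Prime) (hodd : Odd p)
    (P : Subgroup G) [P.Normal] (hPc : Nat.card P = p) (hco : p.Coprime P.index)
    {ι : Type*} (x : ι → G) (hgen : Subgroup.closure (Set.range x) = ⊤)
    (hord : ∀ i, (orderOf (x i)).Coprime p)
    (hact : ∀ i, (∀ u ∈ P, x i * u = u * x i) ∨ (∀ u ∈ P, x i * u = u⁻¹ * x i))
    (hall : ∀ (Q : Subgroup G) (i : ι), (∀ j, j ≠ i → x j ∈ Q) → ∀ j, x j ∈ Q)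
    (htwo : ∀ i j k, i ≠ j → j ≠ k → i ≠ k → (∀ u ∈ P, x i * u = u * x i) ∨
      (∀ u ∈ P, x j * u = u * x j) ∨ (∀ u ∈ P, x k * u = u * x k)) : False := by
  obtain ⟨Q, hQ⟩ := Subgroup.exists_right_complement'_of_coprime (N := P) (by rw [hPc]; exact hco)
  have hne : ∀ Q' : Subgroup G, P.IsComplement' Q' → (∀ j, x j ∈ Q') → False := by
    intro Q' hQ' hmem
    have hle : (⊤ : Subgroup G) ≤ Q' := by
      rw [← hgen, Subgroup.closure_le]
      rintro _ ⟨j, rfl⟩
      exact hmem j
    have hQtop : Q' = ⊤ := top_le_iff.mp hle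
    have hcard := hQ'.card_mul
    rw [hQtop, Subgroup.card_top, hPc] at hcard
    have hpos : 0 < Nat.card G := Nat.card_pos
    have h2 := hp.two_le
    nlinarith
  by_cases hex : ∃ i, ¬ (∀ u ∈ P, x i * u = u * x i)
  · obtain ⟨i, hi⟩ := hex
    have hii := (hact i).resolve_left hi
    have hcoQ : (Nat.card P).Coprime (Nat.card Q) := by
      rw [hPc]
      have := hQ.index_eq_card
      rw [← hQ.symm.index_eq_card]
      exact hco
    obtain ⟨Q', hQ', hiQ'⟩ := exists_compl_of_inv hodd P Q hPc hQ hcoQ (x i) hii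
    have hcent : ∀ j, (∀ u ∈ P, x j * u = u * x j) → x j ∈ Q' := fun j hj =>
      mem_compl_of_comm P Q' hPc hQ' (x j) (hord j) hj
    by_cases hex2 : ∃ j, j ≠ i ∧ ¬ (∀ u ∈ P, x j * u = u * x j)
    · obtain ⟨j, hji, hj⟩ := hex2
      refine hne Q' hQ' (hall Q' j ?_)
      intro k hkj
      by_cases hki : k = i
      · rw [hki]; exact hiQ'
      · apply hcent
        rcases htwo i j k hji.symm (Ne.symm hkj) (Ne.symm hki) with h | h | h
        · exact absurd h hi
        · exact absurd h hj
        · exact h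
    · push_neg at hex2
      refine hne Q' hQ' (fun k => ?_)
      by_cases hki : k = i
      · rw [hki]; exact hiQ'
      · exact hcent k (hex2 k hki)
  · push_neg at hex
    exact hne Q hQ (fun j => mem_compl_of_comm P Q hPc hQ (x j) (hord j) (hex j))

end Pool.Agent.H57R2.AM
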