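import Mathlib
import Pool.Agent.H57R2.AMGroup

set_option autoImplicit false

namespace Pool.Agent.H57R2.AM

open Subgroup

/-- An element some power of which, with exponent `m` such that `gcd(m, p-1) ∣ 2`, centralises a normal subgroup of
prime order `p` either centralises or inverts it. -/
lemma act_pm {G : Type*} [Group G] [Finite G] {p : ℕ} (hp : p.Prime)
    (P : Subgroup G) [P.Normal] (hPc : Nat.card P = p) (g : G) (m : ℕ)
    (hm : ∀ u ∈ P, g ^ m * u = u * g ^ m) (hgcd : Nat.gcd m (p - 1) ∣ 2) :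
    (∀ u ∈ P, g * u = u * g) ∨ (∀ u ∈ P, g * u = u⁻¹ * g) := by
  have : Fact p.Prime := ⟨hp⟩
  have : IsCyclic P := isCyclic_of_prime_card hPc
  set f : MulAut P := MulAut.conjNormal g with hf
  have hfm : f ^ m = 1 := by
    rw [hf, ← map_pow]
    ext u
    rw [MulAut.conjNormal_apply, hm u u.2]
    simp
  have hfp : f ^ (p - 1) = 1 := by
    have h1 : Nat.card (MulAut P) = p - 1 := by
      rw [Nat.card_congr (IsCyclic.mulAutMulEquiv P).toEquiv, hPc, Nat.card_eq_fintype_card, ZMod.card_units_eq_totient,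
        Nat.totient_prime hp]
    rw [← h1]
    exact pow_card_eq_one'
  have hf2 : f ^ 2 = 1 := by
    have h1 : orderOf f ∣ Nat.gcd m (p - 1) := Nat.dvd_gcd (orderOf_dvd_of_pow_eq_one hfm) (orderOf_dvd_of_pow_eq_one hfp)
    exact orderOf_dvd_iff_pow_eq_one.mp (h1.trans hgcd)
  have hff : ∀ u : P, f (f u) = u := by
    intro u
    have := congrArg (fun φ : MulAut P => φ u) hf2
    simpa [pow_two] using this
  have hcomm : ∀ u v : P, u * v = v * u := fun u v => (IsCyclic.commGroup (α := P)).mul_comm u v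
  by_cases h : ∀ u : P, u * f u = 1
  · right
    intro u hu
    have h1 := h ⟨u, hu⟩
    have h2 : f ⟨u, hu⟩ = (⟨u, hu⟩ : P)⁻¹ := eq_inv_of_mul_eq_one_right h1
    have h3 := congrArg Subtype.val h2
    rw [hf, MulAut.conjNormal_apply] at h3
    simp only [InvMemClass.coe_inv] at h3
    rw [← h3]; group
  · left
    push Not at h
    obtain ⟨u0, hu0⟩ := h
    set w := u0 * f u0 with hw
    have hfw : f w = w := by rw [hw, map_mul, hff, hcomm]
    have hzp : zpowers w = ⊤ := by
      have := zpowers_eq_top_of_prime_card (p := p) hPc hu0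
      exact this
    have hfix : ∀ u : P, f u = u := by
      intro u
      have hu : u ∈ zpowers w := by rw [hzp]; exact mem_top u
      obtain ⟨k, rfl⟩ := mem_zpowers_iff.mp hu
      rw [map_zpow, hfw]
    intro u hu
    have h3 := congrArg Subtype.val (hfix ⟨u, hu⟩)
    rw [hf, MulAut.conjNormal_apply] at h3
    simp only at h3
    calc g * u = (g * u * g⁻¹) * g := by group
      _ = u * g := by rw [h3]

lemma exists_ne_inv {G : Type*} [Group G] [Finite G] {p : ℕ} (hp : p.Prime) (hodd : Odd p)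
    (P : Subgroup G) (hPc : Nat.card P = p) : ∃ u ∈ P, u ≠ u⁻¹ := by
  have : Fact p.Prime := ⟨hp⟩
  have h1 : 1 < Nat.card P := by rw [hPc]; exact hp.one_lt
  have : Nontrivial P := Finite.one_lt_card_iff_nontrivial.mp h1
  obtain ⟨u, hu⟩ := exists_ne (1 : P)
  refine ⟨u, u.2, fun h => hu ?_⟩
  have h2 : (u : G) ^ 2 = 1 := by
    rw [pow_two]
    nth_rewrite 2 [h]
    exact mul_inv_cancel _
  have h3 : (u : G) ^ p = 1 := by
    have : u ^ (Nat.card P) = 1 := pow_card_eq_one'
    rw [hPc] at this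
    exact_mod_cast congrArg Subtype.val this
  have h5 : orderOf (u : G) ∣ Nat.gcd 2 p := Nat.dvd_gcd (orderOf_dvd_of_pow_eq_one h2) (orderOf_dvd_of_pow_eq_one h3)
  have h6 : Nat.gcd 2 p = 1 := (Nat.coprime_two_left).mpr hodd
  rw [h6, Nat.dvd_one, orderOf_eq_one_iff] at h5
  exact Subtype.ext h5

/-- the obstruction for three generators -/
lemma no_normal_sylow_three {G : Type*} [Group G] [Finite G] {p : ℕ} (hp : p.Prime) (hodd : Odd p)
    (P : Subgroup G) [P.Normal] (hPc : Nat.card P = p) (hco : p.Coprime P.index)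
    (x : Fin 3 → G) (hgen : Subgroup.closure (Set.range x) = ⊤) (hprod : x 0 * x 1 * x 2 = 1)
    (hord : ∀ i, (orderOf (x i)).Coprime p)
    (hact : ∀ i, (∀ u ∈ P, x i * u = u * x i) ∨ (∀ u ∈ P, x i * u = u⁻¹ * x i)) : False := by
  refine no_normal_sylow hp hodd P hPc hco x hgen hord hact (fun Q i h => all_mem_of_prod_three Q x hprod i h) ?_
  intro i j k hij hjk hik
  by_contra hcon
  have h1 : ¬ (∀ u ∈ P, x i * u = u * x i) := fun h => hcon (Or.inl h)
  have h2 : ¬ (∀ u ∈ P, x j * u = u * x j) := fun h => hcon (Or.inr (Or.inl h))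
  have h3 : ¬ (∀ u ∈ P, x k * u = u * x k) := fun h => hcon (Or.inr (Or.inr h))
  obtain ⟨u, huP, hu⟩ := exists_ne_inv hp hodd P hPc
  have hfin : ∀ i j k l : Fin 3, i ≠ j → j ≠ k → i ≠ k → l = i ∨ l = j ∨ l = k := by decide
  have hall : ∀ l : Fin 3, ∀ u ∈ P, x l * u = u⁻¹ * x l := by
    intro l
    rcases hfin i j k l hij hjk hik with rfl | rfl | rfl
    · exact (hact _).resolve_left h1
    · exact (hact _).resolve_left h2
    · exact (hact _).resolve_left h3
  apply hu
  have e1 : x 0 * x 1 * x 2 * u = u⁻¹ * (x 0 * x 1 * x 2) := by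
    rw [mul_assoc, hall 2 u huP, ← mul_assoc, mul_assoc (x 0), hall 1 _ (P.inv_mem huP), inv_inv, ← mul_assoc,
      hall 0 u huP]
    simp only [mul_assoc]
  rw [hprod] at e1
  simpa using e1

lemma four_aux {G : Type*} [Group G] (P : Subgroup G) (x : Fin 4 → G) (hprod : x 0 * x 1 * x 2 * x 3 = 1)
    (i0 : Fin 4) (h0 : ∀ u ∈ P, x i0 * u = u * x i0)
    (hinv : ∀ l, l ≠ i0 → ∀ u ∈ P, x l * u = u⁻¹ * x l) (u : G) (huP : u ∈ P) : u = u⁻¹ := by
  have e1 : x 0 * x 1 * x 2 * x 3 * u = u⁻¹ * (x 0 * x 1 * x 2 * x 3) := by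
    have a1 : ∀ a b c d : G, a * b * c * d * u = a * (b * (c * (d * u))) := by intros; simp only [mul_assoc]
    have a2 : ∀ a v b : G, a * (v * b) = (a * v) * b := by intros; simp only [mul_assoc]
    have huP' := P.inv_mem huP
    fin_cases i0
    · have g3 := hinv 3 (by decide)
      have g2 := hinv 2 (by decide)
      have g1 := hinv 1 (by decide)
      simp only [Fin.zero_eta] at h0
      rw [a1, g3 u huP, a2 (x 2), g2 _ huP', inv_inv, mul_assoc u, a2 (x 1), g1 u huP, mul_assoc u⁻¹, a2 (x 0), h0 _ huP']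
      simp only [mul_assoc]
    · have g3 := hinv 3 (by decide)
      have g2 := hinv 2 (by decide)
      have g0 := hinv 0 (by decide)
      simp only [Fin.mk_one] at h0
      rw [a1, g3 u huP, a2 (x 2), g2 _ huP', inv_inv, mul_assoc u, a2 (x 1), h0 u huP, mul_assoc u, a2 (x 0), g0 _ huP]
      simp only [mul_assoc]
    · have g3 := hinv 3 (by decide)
      have g1 := hinv 1 (by decide)
      have g0 := hinv 0 (by decide)
      simp only [Fin.reduceFinMk] at h0
      rw [a1, g3 u huP, a2 (x 2), h0 _ huP', mul_assoc u⁻¹, a2 (x 1), g1 _ huP', inv_inv, mul_assoc u, a2 (x 0), g0 _ huP]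
      simp only [mul_assoc]
    · have g2 := hinv 2 (by decide)
      have g1 := hinv 1 (by decide)
      have g0 := hinv 0 (by decide)
      simp only [Fin.reduceFinMk] at h0
      rw [a1, h0 u huP, a2 (x 2), g2 _ huP, mul_assoc u⁻¹, a2 (x 1), g1 _ huP', inv_inv, mul_assoc u, a2 (x 0), g0 _ huP]
      simp only [mul_assoc]
  rw [hprod] at e1
  simpa using e1

/-- the obstruction for four generators one of which centralises `P` -/
lemma no_normal_sylow_four {G : Type*} [Group G] [Finite G] {p : ℕ} (hp : p.Prime) (hodd : Odd p)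
    (P : Subgroup G) [P.Normal] (hPc : Nat.card P = p) (hco : p.Coprime P.index)
    (x : Fin 4 → G) (hgen : Subgroup.closure (Set.range x) = ⊤) (hprod : x 0 * x 1 * x 2 * x 3 = 1)
    (hord : ∀ i, (orderOf (x i)).Coprime p)
    (hact : ∀ i, (∀ u ∈ P, x i * u = u * x i) ∨ (∀ u ∈ P, x i * u = u⁻¹ * x i))
    (i0 : Fin 4) (h0 : ∀ u ∈ P, x i0 * u = u * x i0) : False := by
  refine no_normal_sylow hp hodd P hPc hco x hgen hord hact (fun Q i h => all_mem_of_prod_four Q x hprod i h) ?_
  intro i j k hij hjk hik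
  by_contra hcon
  have h1 : ¬ (∀ u ∈ P, x i * u = u * x i) := fun h => hcon (Or.inl h)
  have h2 : ¬ (∀ u ∈ P, x j * u = u * x j) := fun h => hcon (Or.inr (Or.inl h))
  have h3 : ¬ (∀ u ∈ P, x k * u = u * x k) := fun h => hcon (Or.inr (Or.inr h))
  obtain ⟨u, huP, hu⟩ := exists_ne_inv hp hodd P hPc
  apply hu
  refine four_aux P x hprod i0 h0 ?_ u huP
  intro l hl
  have hi : i ≠ i0 := fun h => h1 (h ▸ h0)
  have hj : j ≠ i0 := fun h => h2 (h ▸ h0)
  have hk : k ≠ i0 := fun h => h3 (h ▸ h0)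
  have hfin : ∀ i0 i j k l : Fin 4, i ≠ j → j ≠ k → i ≠ k → i ≠ i0 → j ≠ i0 → k ≠ i0 → l ≠ i0 →
      l = i ∨ l = j ∨ l = k := by decide
  rcases hfin i0 i j k l hij hjk hik hi hj hk hl with rfl | rfl | rfl
  · exact (hact _).resolve_left h1
  · exact (hact _).resolve_left h2
  · exact (hact _).resolve_left h3

end Pool.Agent.H57R2.AM
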