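import Mathlib
import Pool.Agent.H57R2.AMGroup2

set_option autoImplicit false

namespace Pool.Agent.H57R2.AM

open Subgroup

/-- a finite group of order `p k` with `k < p` has a normal Sylow `p`-subgroup of order `p` -/
lemma exists_normal_sylow {G : Type*} [Group G] [Finite G] {p k : ℕ} (hp : p.Prime)
    (hcard : Nat.card G = p * k) (hk : k < p) :
    ∃ P : Subgroup G, P.Normal ∧ Nat.card P = p ∧ p.Coprime P.index := by
  have : Fact p.Prime := ⟨hp⟩
  have hk0 : 0 < k := by
    rcases Nat.eq_zero_or_pos k with h | h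
    · rw [h, mul_zero] at hcard
      have : 0 < Nat.card G := Nat.card_pos
      omega
    · exact h
  have hkp : ¬ p ∣ k := fun h => by have := Nat.le_of_dvd hk0 h; omega
  obtain ⟨P⟩ : Nonempty (Sylow p G) := inferInstance
  have hPc : Nat.card P = p := by
    rw [P.card_eq_multiplicity, hcard]
    rw [Nat.factorization_mul hp.ne_zero hk0.ne', Finsupp.add_apply, hp.factorization_self,
      Nat.factorization_eq_zero_of_not_dvd hkp, add_zero, pow_one]
  have hidx : (P : Subgroup G).index = k := by
    have h1 := Subgroup.card_mul_index (P : Subgroup G)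
    have h2 : Nat.card (P : Subgroup G) = p := hPc
    rw [h2, hcard] at h1
    exact Nat.eq_of_mul_eq_mul_left hp.pos h1
  have hn1 : Nat.card (Sylow p G) = 1 := by
    have h1 := card_sylow_modEq_one p G
    have h2 := P.card_dvd_index
    rw [hidx] at h2
    have h3 : Nat.card (Sylow p G) < p := lt_of_le_of_lt (Nat.le_of_dvd hk0 h2) hk
    have h4 : (1 : ℕ) < p := hp.one_lt
    have h5 : Nat.card (Sylow p G) % p = 1 % p := h1
    rwa [Nat.mod_eq_of_lt h3, Nat.mod_eq_of_lt h4] at h5
  have hsub : Subsingleton (Sylow p G) := (Nat.card_eq_one_iff_unique.mp hn1).1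
  refine ⟨P, P.normal_of_subsingleton, hPc, ?_⟩
  rw [hidx]
  exact (Nat.Prime.coprime_iff_not_dvd hp).mpr hkp

/-- in a group generated by two elements `x, y`, the normal core of `⟨xy⟩` is centralised by `xy`; its image under
conjugation is abelian -/
lemma core_conj {G : Type*} [Group G] [Finite G] (x y : G) (a : G)
    (ha : a ∈ (zpowers (x * y)).normalCore) : (x * y) * a = a * (x * y) := by
  have h1 : a ∈ zpowers (x * y) := Subgroup.normalCore_le _ ha
  obtain ⟨k, rfl⟩ := mem_zpowers_iff.mp h1
  exact ((Commute.refl (x * y)).zpow_right k).eq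

/-- exponents: if `x ^ 2 = 1` and `y ^ 3 = 1` then the normal core of `⟨xy⟩` is central (when `x, y` generate) -/
lemma core_central_23 {G : Type*} [Group G] [Finite G] (x y : G) (hx : x ^ 2 = 1) (hy : y ^ 3 = 1)
    (hgen : Subgroup.closure ({x, y} : Set G) = ⊤) : (zpowers (x * y)).normalCore ≤ center G := by
  set A := (zpowers (x * y)).normalCore with hA
  have hAn : A.Normal := Subgroup.normalCore_normal _
  have hAcyc : IsCyclic A := by
    have : A ≤ zpowers (x * y) := Subgroup.normalCore_le _
    exact isCyclic_of_injective (Subgroup.inclusion this) (Subgroup.inclusion_injective this)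
  have hcommA : ∀ f g : MulAut A, f * g = g * f := by
    intro f g
    have h1 := (IsCyclic.mulAutMulEquiv A)
    apply h1.injective
    rw [map_mul, map_mul, mul_comm]
  set c : G →* MulAut A := MulAut.conjNormal with hc
  have hz : c (x * y) = 1 := by
    ext a
    rw [hc, MulAut.conjNormal_apply, core_conj x y a a.2]
    exact mul_inv_cancel_right _ _
  have hx2 : (c x) ^ 2 = 1 := by rw [← map_pow, hx, map_one]
  have hy3 : (c y) ^ 3 = 1 := by rw [← map_pow, hy, map_one]
  have hxy : c x * c y = 1 := by rw [← map_mul, hz]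
  have hyx : c y = (c x)⁻¹ := eq_inv_of_mul_eq_one_right hxy
  have hx3 : (c x) ^ 3 = 1 := by
    rw [hyx, inv_pow, inv_eq_one] at hy3; exact hy3
  have hx1 : c x = 1 := by
    have : (c x) ^ 3 = (c x) ^ 2 * c x := pow_succ _ 2
    rw [hx3, hx2, one_mul] at this
    exact this.symm
  have hy1 : c y = 1 := by rw [hyx, hx1, inv_one]
  have hker : (⊤ : Subgroup G) ≤ c.ker := by
    rw [← hgen, Subgroup.closure_le]
    rintro g (rfl | rfl)
    · exact hx1
    · exact hy1
  intro a ha
  rw [Subgroup.mem_center_iff]
  intro g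
  have hg : c g = 1 := hker (mem_top g)
  have h1 := congrArg (fun φ : MulAut A => ((φ ⟨a, ha⟩ : A) : G)) hg
  simp only [hc, MulAut.conjNormal_apply, MulAut.one_apply] at h1
  calc g * a = (g * a * g⁻¹) * g := by group
    _ = a * g := by rw [h1]

lemma index_normalCore_dvd {G : Type*} [Group G] [Finite G] (H : Subgroup G) :
    H.normalCore.index ∣ (H.index).factorial := by
  rw [Subgroup.normalCore_eq_ker, Subgroup.index_ker]
  have h1 : Nat.card (Equiv.Perm (G ⧸ H)) = H.index.factorial := by
    rw [Nat.card_perm]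
    rfl
  rw [← h1]
  exact Subgroup.card_subgroup_dvd_card _

/-- the `(2,3,n)` case -/
lemma order_le_23 {G : Type*} [Group G] [Finite G] (x y : G) (hx : x ^ 2 = 1) (hy : y ^ 3 = 1)
    (hgen : Subgroup.closure ({x, y} : Set G) = ⊤) :
    orderOf (x * y) ∣ 6 * ((zpowers (x * y)).index).factorial := by
  set b := (center G).index with hb
  have hdvd : b ∣ ((zpowers (x * y)).index).factorial :=
    (Subgroup.index_dvd_of_le (core_central_23 x y hx hy hgen)).trans (index_normalCore_dvd _)
  have key : (x * y) ^ (6 * b) = 1 := by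
    have h1 := (MonoidHom.transferCenterPow G)
    have e : ∀ g : G, ((MonoidHom.transferCenterPow G g : center G) : G) = g ^ b := fun g =>
      MonoidHom.transferCenterPow_apply g
    have h2 : (x * y) ^ b = x ^ b * y ^ b := by
      rw [← e, ← e, ← e, map_mul]; rfl
    have hcomm : Commute (x ^ b) (y ^ b) := by
      show x ^ b * y ^ b = y ^ b * x ^ b
      rw [← e x]
      exact ((Subgroup.mem_center_iff.mp (MonoidHom.transferCenterPow G x).2) (y ^ b)).symm
    rw [mul_comm 6 b, pow_mul, h2, hcomm.mul_pow, ← pow_mul, ← pow_mul]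
    have h3 : x ^ (b * 6) = 1 := by
      rw [show b * 6 = 2 * (b * 3) by ring, pow_mul, hx, one_pow]
    have h4 : y ^ (b * 6) = 1 := by
      rw [show b * 6 = 3 * (b * 2) by ring, pow_mul, hy, one_pow]
    rw [h3, h4, one_mul]
  exact (orderOf_dvd_of_pow_eq_one key).trans (Nat.mul_dvd_mul_left 6 hdvd)

end Pool.Agent.H57R2.AM
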