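import Mathlib
import Pool.Agent.H57R2.AMGroup3

set_option autoImplicit false

namespace Pool.Agent.H57R2.AM

open Subgroup

/-- a finite group is covered by a set containing `1` closed under right multiplication by generators -/
lemma card_le_of_closed {K : Type*} [Group K] [Finite K] (x y : K)
    (hgen : Subgroup.closure ({x, y} : Set K) = ⊤) {m : ℕ} (f : Fin m → K)
    (h1 : ∃ i, f i = 1) (hx : ∀ i, ∃ j, f j = f i * x) (hy : ∀ i, ∃ j, f j = f i * y) :
    Nat.card K ≤ m := by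
  have hcl : ∀ g : K, ∀ i, ∃ j, f j = f i * g := by
    let T : Submonoid K :=
      { carrier := {g | ∀ i, ∃ j, f j = f i * g}
        one_mem' := fun i => ⟨i, (mul_one _).symm⟩
        mul_mem' := by
          intro a b ha hb i
          obtain ⟨j, hj⟩ := ha i
          obtain ⟨k, hk⟩ := hb j
          exact ⟨k, by rw [hk, hj, mul_assoc]⟩ }
    have hinv : ∀ g, g ∈ T → g⁻¹ ∈ T := by
      intro g hg
      have hpos : 0 < Nat.card K := Nat.card_pos
      have : g⁻¹ = g ^ (Nat.card K - 1) := by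
        rw [eq_comm]
        apply eq_inv_of_mul_eq_one_left
        rw [← pow_succ, Nat.sub_add_cancel hpos, pow_card_eq_one']
      rw [this]
      exact T.pow_mem hg _
    let T' : Subgroup K := { T with inv_mem' := fun {g} hg => hinv g hg }
    have hT : (⊤ : Subgroup K) ≤ T' := by
      rw [← hgen, Subgroup.closure_le]
      rintro g (rfl | rfl)
      · exact hx
      · exact hy
    intro g
    exact hT (mem_top g)
  obtain ⟨i0, hi0⟩ := h1
  have hsurj : Function.Surjective f := by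
    intro g
    obtain ⟨j, hj⟩ := hcl g i0
    exact ⟨j, by rw [hj, hi0, one_mul]⟩
  have := Nat.card_le_card_of_surjective f hsurj
  simpa using this

lemma card_le_24 {K : Type*} [Group K] [Finite K] (x y : K)
    (hgen : Subgroup.closure ({x, y} : Set K) = ⊤) (hx : x ^ 2 = 1) (hy : y ^ 4 = 1) (hxy : (x * y) ^ 3 = 1) :
    Nat.card K ≤ 24 := by
  -- basic relations
  have hxx : x * x = 1 := by rw [← pow_two]; exact hx
  have hyyyy : y * y * y * y = 1 := by rw [← hy]; simp only [pow_succ, pow_zero, one_mul]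
  have hxi : x⁻¹ = x := inv_eq_of_mul_eq_one_left hxx
  have hyi : y⁻¹ = y ^ 3 := by
    rw [eq_comm]; apply eq_inv_of_mul_eq_one_left; rw [← pow_succ]; exact hy
  have r1 : x * y * x = y ^ 3 * x * y ^ 3 := by
    have h : (x * y * x) * (y * x * y) = 1 := by rw [← hxy]; simp only [pow_succ, pow_zero, one_mul, mul_assoc]
    have h2 : x * y * x = (y * x * y)⁻¹ := eq_inv_of_mul_eq_one_left h
    rw [h2, mul_inv_rev, mul_inv_rev, hxi, hyi]; simp only [mul_assoc]
  have r2 : x * y ^ 3 * x = y * x * y := by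
    have h : (x * y ^ 3 * x) = (x * y * x)⁻¹ := by
      rw [mul_inv_rev, mul_inv_rev, hxi, hyi]; simp only [mul_assoc]
    have h' : (x * y * x) * (y * x * y) = 1 := by rw [← hxy]; simp only [pow_succ, pow_zero, one_mul, mul_assoc]
    rw [h]
    exact inv_eq_of_mul_eq_one_right h'
  have r3 : x * y ^ 2 * x * y = y ^ 3 * (x * y ^ 2 * x) := by
    -- x y (y x y) = x y (x y^3 x) = (x y x) y^3 x = y^3 x y^3 y^3 x = y^3 x y^2 x
    have e1 : x * y ^ 2 * x * y = x * y * (y * x * y) := by simp only [pow_succ, pow_zero, one_mul, mul_assoc]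
    rw [e1, ← r2]
    have e2 : x * y * (x * y ^ 3 * x) = (x * y * x) * y ^ 3 * x := by simp only [mul_assoc]
    rw [e2, r1]
    have e3 : y ^ 3 * x * y ^ 3 * y ^ 3 * x = y ^ 3 * (x * (y ^ 3 * y ^ 3) * x) := by simp only [mul_assoc]
    rw [e3]
    have e4 : y ^ 3 * y ^ 3 = y ^ 2 := by rw [← pow_add, show 3 + 3 = 4 + 2 by norm_num, pow_add, hy, one_mul]
    rw [e4]
  have hymod : ∀ k : ℕ, y ^ k = y ^ (k % 4) := by
    intro k
    conv_lhs => rw [← Nat.div_add_mod k 4, pow_add, pow_mul, hy, one_pow, one_mul]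
  let t : ℕ → K := fun j => match j with
    | 0 => 1
    | 1 => x
    | 2 => x * y
    | 3 => x * y ^ 2
    | 4 => x * y ^ 3
    | _ => x * y ^ 2 * x
  let f : Fin 24 → K := fun i => y ^ (i.val / 6) * t (i.val % 6)
  have hf : ∀ (k j : ℕ), j < 6 → ∃ i : Fin 24, f i = y ^ k * t j := by
    intro k j hj
    refine ⟨⟨6 * (k % 4) + j, by have := Nat.mod_lt k (show 0 < 4 by norm_num); omega⟩, ?_⟩
    show y ^ ((6 * (k % 4) + j) / 6) * t ((6 * (k % 4) + j) % 6) = _
    rw [show (6 * (k % 4) + j) / 6 = k % 4 by omega, show (6 * (k % 4) + j) % 6 = j by omega, ← hymod]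
  have hxt : ∀ j, j < 6 → ∃ k j', j' < 6 ∧ t j * x = y ^ k * t j' := by
    intro j hj
    interval_cases j
    · exact ⟨0, 1, by norm_num, by simp [t]⟩
    · exact ⟨0, 0, by norm_num, by simp [t, hxx]⟩
    · exact ⟨3, 4, by norm_num, by show x * y * x = y ^ 3 * (x * y ^ 3); rw [r1, mul_assoc]⟩
    · exact ⟨0, 5, by norm_num, by simp [t]⟩
    · exact ⟨1, 2, by norm_num, by show x * y ^ 3 * x = y ^ 1 * (x * y); rw [r2, pow_one, mul_assoc]⟩
    · exact ⟨0, 3, by norm_num, by show x * y ^ 2 * x * x = y ^ 0 * (x * y ^ 2); rw [mul_assoc, hxx, mul_one, pow_zero, one_mul]⟩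
  have hyt : ∀ j, j < 6 → ∃ k j', j' < 6 ∧ t j * y = y ^ k * t j' := by
    intro j hj
    interval_cases j
    · exact ⟨1, 0, by norm_num, by simp [t]⟩
    · exact ⟨0, 2, by norm_num, by simp [t]⟩
    · exact ⟨0, 3, by norm_num, by show x * y * y = y ^ 0 * (x * y ^ 2); rw [pow_zero, one_mul, pow_two, mul_assoc]⟩
    · exact ⟨0, 4, by norm_num, by show x * y ^ 2 * y = y ^ 0 * (x * y ^ 3); rw [pow_zero, one_mul, mul_assoc, ← pow_succ]⟩
    · exact ⟨0, 1, by norm_num, by show x * y ^ 3 * y = y ^ 0 * x; rw [pow_zero, one_mul, mul_assoc, ← pow_succ, hy, mul_one]⟩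
    · exact ⟨3, 5, by norm_num, by show x * y ^ 2 * x * y = y ^ 3 * (x * y ^ 2 * x); exact r3⟩
  refine card_le_of_closed x y hgen f ⟨0, by simp [f, t]⟩ ?_ ?_
  · intro i
    obtain ⟨k, j', hj', he⟩ := hxt (i.val % 6) (Nat.mod_lt _ (by norm_num))
    obtain ⟨j, hj⟩ := hf (i.val / 6 + k) j' hj'
    refine ⟨j, ?_⟩
    rw [hj]
    show _ = y ^ (i.val / 6) * t (i.val % 6) * x
    rw [mul_assoc, he, pow_add, mul_assoc]
  · intro i
    obtain ⟨k, j', hj', he⟩ := hyt (i.val % 6) (Nat.mod_lt _ (by norm_num))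
    obtain ⟨j, hj⟩ := hf (i.val / 6 + k) j' hj'
    refine ⟨j, ?_⟩
    rw [hj]
    show _ = y ^ (i.val / 6) * t (i.val % 6) * y
    rw [mul_assoc, he, pow_add, mul_assoc]

lemma card_le_8 {K : Type*} [Group K] [Finite K] (x y : K)
    (hgen : Subgroup.closure ({x, y} : Set K) = ⊤) (hx : x ^ 2 = 1) (hy : y ^ 4 = 1) (hxy : (x * y) ^ 2 = 1) :
    Nat.card K ≤ 8 := by
  have hxx : x * x = 1 := by rw [← pow_two]; exact hx
  have hxi : x⁻¹ = x := inv_eq_of_mul_eq_one_left hxx
  have hyi : y⁻¹ = y ^ 3 := by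
    rw [eq_comm]; apply eq_inv_of_mul_eq_one_left; rw [← pow_succ]; exact hy
  have r1 : x * y = y ^ 3 * x := by
    have h : (x * y) * (x * y) = 1 := by rw [← hxy]; simp only [pow_succ, pow_zero, one_mul, mul_assoc]
    have h2 : x * y = (x * y)⁻¹ := eq_inv_of_mul_eq_one_left h
    rw [h2, mul_inv_rev, hxi, hyi]
  have hymod : ∀ k : ℕ, y ^ k = y ^ (k % 4) := by
    intro k
    conv_lhs => rw [← Nat.div_add_mod k 4, pow_add, pow_mul, hy, one_pow, one_mul]
  let t : ℕ → K := fun j => match j with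
    | 0 => 1
    | _ => x
  let f : Fin 8 → K := fun i => y ^ (i.val / 2) * t (i.val % 2)
  have hf : ∀ (k j : ℕ), j < 2 → ∃ i : Fin 8, f i = y ^ k * t j := by
    intro k j hj
    refine ⟨⟨2 * (k % 4) + j, by have := Nat.mod_lt k (show 0 < 4 by norm_num); omega⟩, ?_⟩
    show y ^ ((2 * (k % 4) + j) / 2) * t ((2 * (k % 4) + j) % 2) = _
    rw [show (2 * (k % 4) + j) / 2 = k % 4 by omega, show (2 * (k % 4) + j) % 2 = j by omega, ← hymod]
  have hxt : ∀ j, j < 2 → ∃ k j', j' < 2 ∧ t j * x = y ^ k * t j' := by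
    intro j hj
    interval_cases j
    · exact ⟨0, 1, by norm_num, by simp [t]⟩
    · exact ⟨0, 0, by norm_num, by simp [t, hxx]⟩
  have hyt : ∀ j, j < 2 → ∃ k j', j' < 2 ∧ t j * y = y ^ k * t j' := by
    intro j hj
    interval_cases j
    · exact ⟨1, 0, by norm_num, by simp [t]⟩
    · exact ⟨3, 1, by norm_num, by show x * y = y ^ 3 * x; exact r1⟩
  refine card_le_of_closed x y hgen f ⟨0, by simp [f, t]⟩ ?_ ?_
  · intro i
    obtain ⟨k, j', hj', he⟩ := hxt (i.val % 2) (Nat.mod_lt _ (by norm_num))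
    obtain ⟨j, hj⟩ := hf (i.val / 2 + k) j' hj'
    refine ⟨j, ?_⟩
    rw [hj]
    show _ = y ^ (i.val / 2) * t (i.val % 2) * x
    rw [mul_assoc, he, pow_add, mul_assoc]
  · intro i
    obtain ⟨k, j', hj', he⟩ := hyt (i.val % 2) (Nat.mod_lt _ (by norm_num))
    obtain ⟨j, hj⟩ := hf (i.val / 2 + k) j' hj'
    refine ⟨j, ?_⟩
    rw [hj]
    show _ = y ^ (i.val / 2) * t (i.val % 2) * y
    rw [mul_assoc, he, pow_add, mul_assoc]

/-- A suitable power of `z` generates a normal subgroup. -/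
lemma zpowers_normal {G : Type*} [Group G] [Finite G] (z : G) (n0 n' : ℕ) (hn : orderOf z = n0 * n')
    (hco : n'.Coprime ((zpowers z).index).factorial) : (zpowers (z ^ n0)).Normal := by
  set A := (zpowers z).normalCore with hA
  have hAn : A.Normal := Subgroup.normalCore_normal _
  have hpos : 0 < orderOf z := orderOf_pos z
  have hn' : 0 < n' := by
    rcases Nat.eq_zero_or_pos n' with h | h
    · rw [h, mul_zero] at hn; omega
    · exact h
  have hzA : z ^ n0 ∈ A := by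
    have h1 : z ^ A.index ∈ A := Subgroup.pow_index_mem A z
    have h2 : z ^ (orderOf z) ∈ A := by rw [pow_orderOf_eq_one]; exact A.one_mem
    have h3 : z ^ (Nat.gcd A.index (orderOf z)) ∈ A := by
      have := Nat.gcd_eq_gcd_ab A.index (orderOf z)
      have h4 : z ^ ((Nat.gcd A.index (orderOf z) : ℕ) : ℤ) ∈ A := by
        rw [this, zpow_add, zpow_mul, zpow_mul]
        apply A.mul_mem
        · apply A.zpow_mem; rw [zpow_natCast]; exact h1
        · apply A.zpow_mem; rw [zpow_natCast]; exact h2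
      rwa [zpow_natCast] at h4
    have h5 : Nat.gcd A.index (orderOf z) ∣ n0 := by
      have h6 : (Nat.gcd A.index (orderOf z)).Coprime n' := by
        have h7 : A.index.Coprime n' := (hco.coprime_dvd_right (index_normalCore_dvd _)).symm
        exact h7.coprime_dvd_left (Nat.gcd_dvd_left _ _)
      have h8 : Nat.gcd A.index (orderOf z) ∣ n0 * n' := by rw [← hn]; exact Nat.gcd_dvd_right _ _
      exact h6.dvd_of_dvd_mul_right h8
    obtain ⟨c, hc⟩ := h5
    rw [hc, pow_mul]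
    exact A.pow_mem h3 c
  constructor
  intro a ha g
  obtain ⟨k, rfl⟩ := mem_zpowers_iff.mp ha
  have hg : g * z ^ n0 * g⁻¹ ∈ zpowers (z ^ n0) := by
    have h1 : g * z ^ n0 * g⁻¹ ∈ A := hAn.conj_mem _ hzA g
    have h2 : g * z ^ n0 * g⁻¹ ∈ zpowers z := Subgroup.normalCore_le _ h1
    obtain ⟨m, hm⟩ := mem_zpowers_iff.mp h2
    have h3 : (z ^ m) ^ n' = 1 := by
      rw [hm]
      have : (g * z ^ n0 * g⁻¹) ^ n' = g * (z ^ n0) ^ n' * g⁻¹ := conj_pow
      rw [this, ← pow_mul, ← hn, pow_orderOf_eq_one]; group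
    have h4 : (orderOf z : ℤ) ∣ m * n' := by
      rw [orderOf_dvd_iff_zpow_eq_one, zpow_mul, zpow_natCast]; exact h3
    rw [hn] at h4
    push_cast at h4
    have h5 : (n0 : ℤ) ∣ m := by
      have hn'' : (n' : ℤ) ≠ 0 := by exact_mod_cast hn'.ne'
      exact (mul_dvd_mul_iff_right hn'').mp h4
    obtain ⟨c, hc⟩ := h5
    rw [← hm, hc, zpow_mul, zpow_natCast]
    exact Subgroup.zpow_mem _ (mem_zpowers _) c
  have h6 : g * (z ^ n0) ^ k * g⁻¹ = (g * z ^ n0 * g⁻¹) ^ k := by
    rw [conj_zpow]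
  rw [h6]
  exact Subgroup.zpow_mem _ hg k

end Pool.Agent.H57R2.AM
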