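import Mathlib
import Pool.Agent.H57R2.AMGroup4

set_option autoImplicit false

namespace Pool.Agent.H57R2.AM

open Subgroup

universe u

/-- the modulus: `lcm(1, …, 19)` -/
def MM : ℕ := 232792560

/-- `G` is generated by three elements with product one and the given orders -/
def Tri (G : Type*) [Group G] (l m n : ℕ) : Prop :=
  ∃ x : Fin 3 → G, Subgroup.closure (Set.range x) = ⊤ ∧ x 0 * x 1 * x 2 = 1 ∧
    orderOf (x 0) = l ∧ orderOf (x 1) = m ∧ orderOf (x 2) = n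

lemma Tri.rot {G : Type*} [Group G] {l m n : ℕ} (h : Tri G l m n) : Tri G m n l := by
  obtain ⟨x, hg, hp, h0, h1, h2⟩ := h
  refine ⟨![x 1, x 2, x 0], ?_, ?_, ?_, ?_, ?_⟩
  · rw [← hg]
    congr 1
    ext g
    simp only [Set.mem_range, Fin.exists_fin_succ, Fin.isValue]
    simp
    tauto
  · simp only [Matrix.cons_val_zero, Matrix.cons_val_one, Matrix.cons_val]
    have : x 1 * x 2 * x 0 = (x 0)⁻¹ * (x 0 * x 1 * x 2) * x 0 := by group
    rw [this, hp]; group
  · simpa using h1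
  · simpa using h2
  · simpa using h0

lemma Tri.swap {G : Type*} [Group G] {l m n : ℕ} (h : Tri G l m n) : Tri G m l n := by
  obtain ⟨x, hg, hp, h0, h1, h2⟩ := h
  refine ⟨![x 1, (x 1)⁻¹ * x 0 * x 1, x 2], ?_, ?_, ?_, ?_, ?_⟩
  · rw [eq_top_iff, ← hg, Subgroup.closure_le]
    rintro _ ⟨j, rfl⟩
    have m0 : x 1 ∈ Subgroup.closure (Set.range ![x 1, (x 1)⁻¹ * x 0 * x 1, x 2]) := Subgroup.subset_closure ⟨0, rfl⟩
    have m1 : (x 1)⁻¹ * x 0 * x 1 ∈ Subgroup.closure (Set.range ![x 1, (x 1)⁻¹ * x 0 * x 1, x 2]) :=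
      Subgroup.subset_closure ⟨1, rfl⟩
    have m2 : x 2 ∈ Subgroup.closure (Set.range ![x 1, (x 1)⁻¹ * x 0 * x 1, x 2]) := Subgroup.subset_closure ⟨2, rfl⟩
    fin_cases j
    · have e : x 1 * ((x 1)⁻¹ * x 0 * x 1) * (x 1)⁻¹ = x 0 := by group
      have hm := Subgroup.mul_mem _ (Subgroup.mul_mem _ m0 m1) (Subgroup.inv_mem _ m0)
      rw [e] at hm
      exact hm
    · exact m0
    · exact m2
  · simp only [Matrix.cons_val_zero, Matrix.cons_val_one, Matrix.cons_val]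
    have : x 1 * ((x 1)⁻¹ * x 0 * x 1) * x 2 = x 0 * x 1 * x 2 := by group
    rw [this, hp]
  · simpa using h1
  · simp only [Matrix.cons_val_one]
    have : (x 1)⁻¹ * x 0 * x 1 = MulAut.conj (x 1)⁻¹ (x 0) := by simp
    rw [← h0]
    show orderOf ((x 1)⁻¹ * x 0 * x 1) = _
    rw [this]
    exact MulEquiv.orderOf_eq _ _
  · simpa using h2

/-- acting by `±1` -/
def PM {G : Type*} [Group G] (P : Subgroup G) (g : G) : Prop :=
  (∀ u ∈ P, g * u = u * g) ∨ (∀ u ∈ P, g * u = u⁻¹ * g)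

lemma PM.mul {G : Type*} [Group G] {P : Subgroup G} {g h : G} (hg : PM P g) (hh : PM P h) : PM P (g * h) := by
  rcases hg with hg | hg <;> rcases hh with hh | hh
  · left; intro u hu; rw [mul_assoc, hh u hu, ← mul_assoc, hg u hu, mul_assoc]
  · right; intro u hu; rw [mul_assoc, hh u hu, ← mul_assoc, hg _ (P.inv_mem hu), mul_assoc]
  · right; intro u hu; rw [mul_assoc, hh u hu, ← mul_assoc, hg u hu, mul_assoc]
  · left; intro u hu; rw [mul_assoc, hh u hu, ← mul_assoc, hg _ (P.inv_mem hu), inv_inv, mul_assoc]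

lemma PM.inv {G : Type*} [Group G] {P : Subgroup G} {g : G} (hg : PM P g) : PM P g⁻¹ := by
  rcases hg with hg | hg
  · left; intro u hu
    have := hg u hu
    calc g⁻¹ * u = g⁻¹ * (u * g) * g⁻¹ := by group
      _ = g⁻¹ * (g * u) * g⁻¹ := by rw [this]
      _ = u * g⁻¹ := by group
  · right; intro u hu
    have := hg _ (P.inv_mem hu)
    rw [inv_inv] at this
    calc g⁻¹ * u = g⁻¹ * (u * g) * g⁻¹ := by group
      _ = g⁻¹ * (g * u⁻¹) * g⁻¹ := by rw [this]
      _ = u⁻¹ * g⁻¹ := by group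

lemma gcd_dvd_two {p m : ℕ} (hp : 2 ≤ p) (hM : MM ∣ p + 1) (hm : m ∣ MM) : Nat.gcd m (p - 1) ∣ 2 := by
  have h1 : Nat.gcd m (p - 1) ∣ p + 1 := ((Nat.gcd_dvd_left _ _).trans hm).trans hM
  have h2 : Nat.gcd m (p - 1) ∣ p - 1 := Nat.gcd_dvd_right _ _
  have h3 : p + 1 = (p - 1) + 2 := by omega
  rw [h3] at h1
  exact (Nat.dvd_add_right h2).mp h1

lemma dvd_MM {m : ℕ} (h1 : 1 ≤ m) (h2 : m ≤ 19) : m ∣ MM := by
  unfold MM
  interval_cases m <;> norm_num

lemma PM_of_order {G : Type*} [Group G] [Finite G] {p : ℕ} (hp : p.Prime) (hM : MM ∣ p + 1)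
    (P : Subgroup G) [P.Normal] (hPc : Nat.card P = p) (g : G) (hg : orderOf g ≤ 19) : PM P g := by
  refine act_pm hp P hPc g (orderOf g) ?_ (gcd_dvd_two hp.two_le hM (dvd_MM (orderOf_pos g) hg))
  intro u _
  rw [pow_orderOf_eq_one, one_mul, mul_one]

/-- the contradiction in the case `p ∣ |G|` -/
lemma tri_false_of_dvd {G : Type*} [Group G] [Finite G] {p : ℕ} (hp : p.Prime) (hodd : Odd p) (hM : MM ∣ p + 1)
    {k : ℕ} (hcard : Nat.card G = p * k) (hk : k < p)
    (x : Fin 3 → G) (hgen : Subgroup.closure (Set.range x) = ⊤) (hprod : x 0 * x 1 * x 2 = 1)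
    (hord : ∀ i, (orderOf (x i)).Coprime p) (h0 : orderOf (x 0) ≤ 19) (h1 : orderOf (x 1) ≤ 19) : False := by
  obtain ⟨P, hPn, hPc, hco⟩ := exists_normal_sylow hp hcard hk
  have a0 : PM P (x 0) := PM_of_order hp hM P hPc _ h0
  have a1 : PM P (x 1) := PM_of_order hp hM P hPc _ h1
  have a2 : PM P (x 2) := by
    have : x 2 = (x 0 * x 1)⁻¹ := eq_inv_of_mul_eq_one_right hprod
    rw [this]
    exact (a0.mul a1).inv
  refine no_normal_sylow_three hp hodd P hPc hco x hgen hprod hord ?_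
  intro i
  fin_cases i
  · exact a0
  · exact a1
  · exact a2

lemma closure_pair {G : Type*} [Group G] (x : Fin 3 → G) (hgen : Subgroup.closure (Set.range x) = ⊤)
    (hprod : x 0 * x 1 * x 2 = 1) : Subgroup.closure ({x 0, x 1} : Set G) = ⊤ := by
  rw [eq_top_iff, ← hgen, Subgroup.closure_le]
  have m0 : x 0 ∈ Subgroup.closure ({x 0, x 1} : Set G) := Subgroup.subset_closure (by simp)
  have m1 : x 1 ∈ Subgroup.closure ({x 0, x 1} : Set G) := Subgroup.subset_closure (by simp)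
  rintro _ ⟨j, rfl⟩
  fin_cases j
  · exact m0
  · exact m1
  · show x 2 ∈ _
    have : x 2 = (x 0 * x 1)⁻¹ := eq_inv_of_mul_eq_one_right hprod
    rw [this]
    exact Subgroup.inv_mem _ (Subgroup.mul_mem _ m0 m1)

/-- the quotient by `⟨z^{n0}⟩` -/
lemma quotient_card {G : Type u} [Group G] [Finite G] (x y : G) (n0 n' : ℕ) (hn : orderOf (x * y) = n0 * n')
    (hgen : Subgroup.closure ({x, y} : Set G) = ⊤)
    (hco : n'.Coprime ((zpowers (x * y)).index).factorial) :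
    ∃ (K : Type u) (_ : Group K) (_ : Finite K) (a b : K), Nat.card K * n' = Nat.card G ∧
      Subgroup.closure ({a, b} : Set K) = ⊤ ∧ (∀ m, x ^ m = 1 → a ^ m = 1) ∧ (∀ m, y ^ m = 1 → b ^ m = 1) ∧
      (a * b) ^ n0 = 1 := by
  have hN := zpowers_normal (x * y) n0 n' hn hco
  set B := zpowers ((x * y) ^ n0) with hB
  have hBc : Nat.card B = n' := by
    rw [hB, Nat.card_zpowers, orderOf_pow, hn]
    have hpos : 0 < n0 * n' := by rw [← hn]; exact orderOf_pos _
    have hn0 : 0 < n0 := Nat.pos_of_mul_pos_right hpos |> fun h => by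
      rcases Nat.eq_zero_or_pos n0 with h' | h'
      · rw [h', zero_mul] at hpos; exact absurd hpos (lt_irrefl 0)
      · exact h'
    rw [Nat.gcd_eq_right (Dvd.intro _ rfl), Nat.mul_div_cancel_left _ hn0]
  refine ⟨G ⧸ B, inferInstance, inferInstance, (x : G ⧸ B), (y : G ⧸ B), ?_, ?_, ?_, ?_, ?_⟩
  · rw [← hBc, mul_comm, ← Subgroup.card_mul_index B]
    rfl
  · have h1 : Subgroup.map (QuotientGroup.mk' B) (Subgroup.closure {x, y}) = ⊤ := by
      rw [hgen, ← MonoidHom.range_eq_map]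
      exact MonoidHom.range_eq_top.mpr (QuotientGroup.mk'_surjective B)
    rw [MonoidHom.map_closure, Set.image_pair] at h1
    exact h1
  · intro m hm
    rw [← QuotientGroup.mk_pow, hm]; rfl
  · intro m hm
    rw [← QuotientGroup.mk_pow, hm]; rfl
  · rw [← QuotientGroup.mk_mul, ← QuotientGroup.mk_pow, QuotientGroup.eq_one_iff]
    exact mem_zpowers _

end Pool.Agent.H57R2.AM
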