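import Mathlib
import Pool.Agent.H57R2.AMTri

set_option autoImplicit false

namespace Pool.Agent.H57R2.AM

open Subgroup

universe u

lemma coprime_of_lt {p m : ℕ} (hp : p.Prime) (h0 : 0 < m) (h : m < p) : m.Coprime p := by
  rw [Nat.coprime_comm, Nat.Prime.coprime_iff_not_dvd hp]
  intro hd
  have := Nat.le_of_dvd h0 hd
  omega

lemma tri_small {G : Type u} [Group G] [Finite G] {p : ℕ} (hp : p.Prime) (hodd : Odd p) (hM : MM ∣ p + 1)
    (hbig : 27436 < p) {l m n : ℕ} (hT : Tri G l m n) (hl : l ≤ 19) (hm : m ≤ 19) (hn : n ≤ 19)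
    (heq : Nat.card G * (l * m * n) = 4 * p * (l * m * n) + Nat.card G * (m * n + l * n + l * m)) : False := by
  obtain ⟨x, hgen, hprod, h0, h1, h2⟩ := hT
  have hl0 : 0 < l := h0 ▸ orderOf_pos _
  have hm0 : 0 < m := h1 ▸ orderOf_pos _
  have hn0 : 0 < n := h2 ▸ orderOf_pos _
  have hN : 0 < Nat.card G := Nat.card_pos
  set N := Nat.card G with hNdef
  set T := l * m * n with hTdef
  have hT0 : 0 < T := by positivity
  have hT1 : T ≤ 6859 := by
    calc T = l * m * n := rfl
      _ ≤ 19 * 19 * 19 := Nat.mul_le_mul (Nat.mul_le_mul hl hm) hn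
      _ = 6859 := by norm_num
  set S := m * n + l * n + l * m with hSdef
  have hST : S < T := by
    by_contra hcon
    push Not at hcon
    have : N * T ≤ N * S := Nat.mul_le_mul_left N hcon
    have h3 : 0 < 4 * p * T := by have := hp.pos; positivity
    omega
  obtain ⟨D, hD⟩ : ∃ D, T = S + D := ⟨T - S, by omega⟩
  have hD0 : 0 < D := by omega
  have hND : N * D = 4 * p * T := by
    have : N * T = N * S + N * D := by rw [hD]; ring
    omega
  have hpN : p ∣ N := by
    have h3 : p ∣ N * D := ⟨4 * T, by rw [hND]; ring⟩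
    rcases (Nat.Prime.dvd_mul hp).mp h3 with h | h
    · exact h
    · have := Nat.le_of_dvd hD0 h
      omega
  obtain ⟨k, hk⟩ := hpN
  have hkD : k * D = 4 * T := by
    have h3 : p * (k * D) = p * (4 * T) := by rw [← mul_assoc, ← hk, hND]; ring
    exact Nat.eq_of_mul_eq_mul_left hp.pos h3
  have hk4 : k ≤ 4 * T := by
    calc k = k * 1 := (mul_one k).symm
      _ ≤ k * D := Nat.mul_le_mul_left k hD0
      _ = 4 * T := hkD
  refine tri_false_of_dvd hp hodd hM hk (by omega) x hgen hprod ?_ (by rw [h0]; exact hl) (by rw [h1]; exact hm)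
  intro i
  fin_cases i
  · show (orderOf (x 0)).Coprime p
    rw [h0]; exact coprime_of_lt hp hl0 (by omega)
  · show (orderOf (x 1)).Coprime p
    rw [h1]; exact coprime_of_lt hp hm0 (by omega)
  · show (orderOf (x 2)).Coprime p
    rw [h2]; exact coprime_of_lt hp hn0 (by omega)

/-- the order of `x0 x1` and the index of the subgroup it generates -/
lemma order_prod {G : Type u} [Group G] (x : Fin 3 → G) (hprod : x 0 * x 1 * x 2 = 1) :
    orderOf (x 0 * x 1) = orderOf (x 2) := by
  have : x 2 = (x 0 * x 1)⁻¹ := eq_inv_of_mul_eq_one_right hprod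
  rw [this, orderOf_inv]

lemma tri_23 {G : Type u} [Group G] [Finite G] {p : ℕ} (hp : p.Prime) (hodd : Odd p) (hM : MM ∣ p + 1)
    (hbig : 6 * Nat.factorial 24 < p) {n : ℕ} (hT : Tri G 2 3 n)
    (heq : Nat.card G * n = 24 * p * n + 6 * Nat.card G) : False := by
  have hb : 168 < 6 * Nat.factorial 24 := by decide
  obtain ⟨x, hgen, hprod, h0, h1, h2⟩ := hT
  have hn0 : 0 < n := h2 ▸ orderOf_pos _
  have hN : 0 < Nat.card G := Nat.card_pos
  have hp0 := hp.pos
  have hn6 : 6 < n := by
    by_contra hcon
    push Not at hcon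
    have h3 : Nat.card G * n ≤ Nat.card G * 6 := Nat.mul_le_mul_left _ hcon
    have h4 : 0 < 24 * p * n := by positivity
    omega
  obtain ⟨d, hd⟩ : ∃ d, n = d + 6 := ⟨n - 6, by omega⟩
  have hd0 : 0 < d := by omega
  have hNd : Nat.card G * d = 24 * p * n := by
    have : Nat.card G * n = Nat.card G * d + 6 * Nat.card G := by rw [hd]; ring
    omega
  by_cases hpN : p ∣ Nat.card G
  · obtain ⟨k, hk⟩ := hpN
    have hkd : k * d = 24 * n := by
      have h3 : p * (k * d) = p * (24 * n) := by rw [← mul_assoc, ← hk, hNd]; ring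
      exact Nat.eq_of_mul_eq_mul_left hp.pos h3
    have hk168 : k ≤ 168 := by
      by_contra hcon
      push Not at hcon
      have : 169 * d ≤ k * d := Nat.mul_le_mul_right d hcon
      omega
    have hk0 : 0 < k := by
      rcases Nat.eq_zero_or_pos k with h | h
      · rw [h, mul_zero] at hk; omega
      · exact h
    refine tri_false_of_dvd hp hodd hM hk (by omega) x hgen hprod ?_ (by rw [h0]; norm_num) (by rw [h1]; norm_num)
    intro i
    fin_cases i
    · show (orderOf (x 0)).Coprime p
      rw [h0]; exact coprime_of_lt hp (by norm_num) (by omega)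
    · show (orderOf (x 1)).Coprime p
      rw [h1]; exact coprime_of_lt hp (by norm_num) (by omega)
    · show (orderOf (x 2)).Coprime p
      rw [h2, Nat.coprime_comm, Nat.Prime.coprime_iff_not_dvd hp]
      intro hpn
      have h3 : p ∣ k * d := by rw [hkd]; exact hpn.mul_left 24
      rcases (Nat.Prime.dvd_mul hp).mp h3 with h | h
      · have := Nat.le_of_dvd hk0 h; omega
      · rw [hd] at hpn
        have h4 := (Nat.dvd_add_right h).mp hpn
        have := Nat.le_of_dvd (by norm_num) h4
        omega
  · have hpd : p ∣ d := by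
      have h3 : p ∣ Nat.card G * d := ⟨24 * n, by rw [hNd]; ring⟩
      exact ((Nat.Prime.dvd_mul hp).mp h3).resolve_left hpN
    obtain ⟨k, hk⟩ := hpd
    set i := (zpowers (x 0 * x 1)).index with hi
    have hin : i * n = Nat.card G := by
      rw [mul_comm, ← h2, ← order_prod x hprod, ← Nat.card_zpowers]
      exact Subgroup.card_mul_index _
    have hik : i * k = 24 := by
      have h3 : (p * n) * (i * k) = (p * n) * 24 := by
        calc (p * n) * (i * k) = (i * n) * (p * k) := by ring
          _ = 24 * p * n := by rw [hin, ← hk, hNd]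
          _ = (p * n) * 24 := by ring
      exact Nat.eq_of_mul_eq_mul_left (by positivity) h3
    have hi24 : i ≤ 24 := by
      rcases Nat.eq_zero_or_pos k with h | h
      · rw [h, mul_zero] at hik; omega
      · calc i = i * 1 := (mul_one i).symm
          _ ≤ i * k := Nat.mul_le_mul_left i h
          _ = 24 := hik
    have h3 := order_le_23 (x 0) (x 1) (by have := pow_orderOf_eq_one (x 0); rwa [h0] at this)
      (by have := pow_orderOf_eq_one (x 1); rwa [h1] at this) (closure_pair x hgen hprod)
    rw [order_prod x hprod, h2, ← hi] at h3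
    have h4 : n ≤ 6 * i.factorial := Nat.le_of_dvd (by positivity) h3
    have h5 : i.factorial ≤ Nat.factorial 24 := Nat.factorial_le hi24
    have h6 : p ≤ d := by
      rcases Nat.eq_zero_or_pos k with h | h
      · rw [h, mul_zero] at hik; omega
      · rw [hk]; exact Nat.le_mul_of_pos_right p h
    omega

lemma coprime_fact {n' : ℕ} (a : ℕ) (h : n' ≡ 1 [MOD a]) (N e : ℕ) (hd : N ∣ a ^ e) : n'.Coprime N := by
  have h1 : n'.Coprime a := by
    have : Nat.gcd n' a = Nat.gcd 1 a := Nat.ModEq.gcd_eq h
    rw [Nat.coprime_iff_gcd_eq_one, this, Nat.gcd_one_left]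
  exact (h1.pow_right e).coprime_dvd_right hd

lemma tri_24 {G : Type u} [Group G] [Finite G] {p : ℕ} (hp : p.Prime) (hodd : Odd p) (hM : MM ∣ p + 1)
    (hbig : 168 < p) {n : ℕ} (hT : Tri G 2 4 n) (hcard : 16 * (p + 1) < Nat.card G)
    (heq : Nat.card G * n = 16 * p * n + 4 * Nat.card G) : False := by
  obtain ⟨x, hgen, hprod, h0, h1, h2⟩ := hT
  have hn0 : 0 < n := h2 ▸ orderOf_pos _
  have hN : 0 < Nat.card G := Nat.card_pos
  have hp0 := hp.pos
  have hn6 : 4 < n := by
    by_contra hcon
    push Not at hcon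
    have h3 : Nat.card G * n ≤ Nat.card G * 4 := Nat.mul_le_mul_left _ hcon
    have h4 : 0 < 16 * p * n := by positivity
    omega
  obtain ⟨d, hd⟩ : ∃ d, n = d + 4 := ⟨n - 4, by omega⟩
  have hd0 : 0 < d := by omega
  have hNd : Nat.card G * d = 16 * p * n := by
    have : Nat.card G * n = Nat.card G * d + 4 * Nat.card G := by rw [hd]; ring
    omega
  by_cases hpN : p ∣ Nat.card G
  · obtain ⟨k, hk⟩ := hpN
    have hkd : k * d = 16 * n := by
      have h3 : p * (k * d) = p * (16 * n) := by rw [← mul_assoc, ← hk, hNd]; ring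
      exact Nat.eq_of_mul_eq_mul_left hp.pos h3
    have hk168 : k ≤ 80 := by
      by_contra hcon
      push Not at hcon
      have : 81 * d ≤ k * d := Nat.mul_le_mul_right d hcon
      omega
    have hk0 : 0 < k := by
      rcases Nat.eq_zero_or_pos k with h | h
      · rw [h, mul_zero] at hk; omega
      · exact h
    refine tri_false_of_dvd hp hodd hM hk (by omega) x hgen hprod ?_ (by rw [h0]; norm_num) (by rw [h1]; norm_num)
    intro i
    fin_cases i
    · show (orderOf (x 0)).Coprime p
      rw [h0]; exact coprime_of_lt hp (by norm_num) (by omega)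
    · show (orderOf (x 1)).Coprime p
      rw [h1]; exact coprime_of_lt hp (by norm_num) (by omega)
    · show (orderOf (x 2)).Coprime p
      rw [h2, Nat.coprime_comm, Nat.Prime.coprime_iff_not_dvd hp]
      intro hpn
      have h3 : p ∣ k * d := by rw [hkd]; exact hpn.mul_left 16
      rcases (Nat.Prime.dvd_mul hp).mp h3 with h | h
      · have := Nat.le_of_dvd hk0 h; omega
      · rw [hd] at hpn
        have h4 := (Nat.dvd_add_right h).mp hpn
        have := Nat.le_of_dvd (by norm_num) h4
        omega
  · have hpd : p ∣ d := by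
      have h3 : p ∣ Nat.card G * d := ⟨16 * n, by rw [hNd]; ring⟩
      exact ((Nat.Prime.dvd_mul hp).mp h3).resolve_left hpN
    obtain ⟨k, hk⟩ := hpd
    set i := (zpowers (x 0 * x 1)).index with hi
    have hin : i * n = Nat.card G := by
      rw [mul_comm, ← h2, ← order_prod x hprod, ← Nat.card_zpowers]
      exact Subgroup.card_mul_index _
    have hik : i * k = 16 := by
      have h3 : (p * n) * (i * k) = (p * n) * 16 := by
        calc (p * n) * (i * k) = (i * n) * (p * k) := by ring
          _ = 16 * p * n := by rw [hin, ← hk, hNd]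
          _ = (p * n) * 16 := by ring
      exact Nat.eq_of_mul_eq_mul_left (by positivity) h3
    have hk0 : 0 < k := by
      rcases Nat.eq_zero_or_pos k with h | h
      · rw [h, mul_zero] at hik; omega
      · exact h
    have hk4 : k < 4 := by
      -- i n > 16 (p+1); multiply by k
      have h3 : 16 * (p + 1) * k < 16 * n := by
        calc 16 * (p + 1) * k < Nat.card G * k := Nat.mul_lt_mul_of_pos_right hcard hk0
          _ = (i * k) * n := by rw [← hin]; ring
          _ = 16 * n := by rw [hik]
      have h4 : (p + 1) * k < n := by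
        have : 16 * ((p + 1) * k) < 16 * n := by rw [← mul_assoc]; exact h3
        exact Nat.lt_of_mul_lt_mul_left this
      rw [hd, hk] at h4
      have : (p + 1) * k = p * k + k := by ring
      omega
    have hx2 : (x 0) ^ 2 = 1 := by have := pow_orderOf_eq_one (x 0); rwa [h0] at this
    have hy4 : (x 1) ^ 4 = 1 := by have := pow_orderOf_eq_one (x 1); rwa [h1] at this
    have hgen2 := closure_pair x hgen hprod
    interval_cases k
    · -- k = 1
      have hi16 : i = 16 := by omega
      have hnp : n = p + 4 := by omega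
      have h3n : 3 ∣ n := by
        have h5 : (3 : ℕ) ∣ p + 1 := (show (3 : ℕ) ∣ MM by unfold MM; norm_num).trans hM
        omega
      obtain ⟨n', hn'⟩ := h3n
      have hmod : n' ≡ 1 [MOD 77597520] := by
        obtain ⟨c, hc⟩ := hM
        have h6 : n' = 77597520 * c + 1 := by
          have : p + 1 = 232792560 * c := hc
          omega
        rw [h6]
        exact (Nat.modEq_zero_iff_dvd.mpr (Dvd.intro _ rfl)).add_right 1
      have hco : n'.Coprime (i.factorial) := by
        rw [hi16]
        exact coprime_fact 77597520 hmod _ 6 (by decide +kernel)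
      obtain ⟨K, _, _, a, b, hKc, hKg, ha, hb, hab⟩ := quotient_card (x 0) (x 1) 3 n'
        (by rw [order_prod x hprod, h2, hn']) hgen2 hco
      have h24 := card_le_24 a b hKg (ha 2 hx2) (hb 4 hy4) hab
      have : Nat.card K * n' ≤ 24 * n' := Nat.mul_le_mul_right n' h24
      rw [hKc, ← hin, hi16, hn'] at this
      omega
    · -- k = 2
      have hi8 : i = 8 := by omega
      have hnp : n = 2 * (p + 2) := by omega
      have hmod : (p + 2) ≡ 1 [MOD MM] := by
        have : p + 2 = (p + 1) + 1 := by omega
        rw [this]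
        exact (Nat.modEq_zero_iff_dvd.mpr hM).add_right 1
      have hco : (p + 2).Coprime (i.factorial) := by
        rw [hi8]
        exact coprime_fact MM hmod _ 3 (by unfold MM; decide +kernel)
      obtain ⟨K, _, _, a, b, hKc, hKg, ha, hb, hab⟩ := quotient_card (x 0) (x 1) 2 (p + 2)
        (by rw [order_prod x hprod, h2, hnp]) hgen2 hco
      have h24 := card_le_8 a b hKg (ha 2 hx2) (hb 4 hy4) hab
      have : Nat.card K * (p + 2) ≤ 8 * (p + 2) := Nat.mul_le_mul_right _ h24
      rw [hKc, ← hin, hi8, hnp] at this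
      omega
    · -- k = 3
      omega

/-- the general statement for triples, in increasing order -/
lemma tri_sorted {G : Type u} [Group G] [Finite G] {p : ℕ} (hp : p.Prime) (hodd : Odd p) (hM : MM ∣ p + 1)
    (hbig : 6 * Nat.factorial 24 < p) {l m n : ℕ} (hT : Tri G l m n) (hcard : 16 * (p + 1) < Nat.card G)
    (hl : 2 ≤ l) (hlm : l ≤ m) (hmn : m ≤ n)
    (heq : Nat.card G * (l * m * n) = 4 * p * (l * m * n) + Nat.card G * (m * n + l * n + l * m)) : False := by
  have hb : 27436 < 6 * Nat.factorial 24 := by decide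
  have hN : 0 < Nat.card G := Nat.card_pos
  obtain ⟨N, hNdef⟩ : ∃ N, N = Nat.card G := ⟨_, rfl⟩
  have hp0 := hp.pos
  obtain ⟨S, hSdef⟩ : ∃ S, S = m * n + l * n + l * m := ⟨_, rfl⟩
  have heq0 := heq
  rw [← hSdef, ← hNdef] at heq
  rw [← hNdef] at hN hcard
  have hm0 : 0 < m := by omega
  have hn0 : 0 < n := by omega
  have hl0 : 0 < l := by omega
  have hTpos : 0 < l * m * n := by positivity
  have hST : S < l * m * n := by
    by_contra hcon
    push Not at hcon
    have : N * (l * m * n) ≤ N * S := Nat.mul_le_mul_left N hcon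
    have h3 : 0 < 4 * p * (l * m * n) := by positivity
    omega
  obtain ⟨D, hD⟩ : ∃ D, l * m * n = S + D := ⟨l * m * n - S, by omega⟩
  have hD0 : 0 < D := by omega
  have hND : N * D = 4 * p * (l * m * n) := by
    have : N * (l * m * n) = N * S + N * D := by rw [hD]; ring
    omega
  have h4D : 4 * D < l * m * n := by
    -- 16 (p+1) D < N D = 4 p T
    have h1 : 16 * (p + 1) * D < 4 * p * (l * m * n) := by
      rw [← hND]; exact Nat.mul_lt_mul_of_pos_right hcard hD0
    by_contra hcon
    push Not at hcon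
    have h2 : 4 * p * (l * m * n) ≤ 4 * p * (4 * D) := Nat.mul_le_mul_left _ hcon
    have h3 : 4 * p * (4 * D) ≤ 16 * (p + 1) * D := by nlinarith
    omega
  -- 3 T < 4 S
  have h3T : 3 * (l * m * n) < 4 * S := by omega
  have hl4 : l < 4 := by
    by_contra hcon
    push Not at hcon
    have e1 : 4 * (m * n) ≤ l * m * n := by
      rw [mul_assoc]; exact Nat.mul_le_mul_right _ hcon
    have e2 : l * n ≤ m * n := Nat.mul_le_mul_right _ hlm
    have e3 : l * m ≤ m * n := by
      calc l * m ≤ n * m := Nat.mul_le_mul_right _ (hlm.trans hmn)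
        _ = m * n := mul_comm _ _
    omega
  have hcase : (l = 2 ∧ m = 3) ∨ (l = 2 ∧ m = 4) ∨ n ≤ 19 := by
    interval_cases l
    · -- l = 2
      have e1 : 2 * m * n = m * n + 2 * n + 2 * m + D := by rw [hD, hSdef]
      by_cases h5 : m ≤ 4
      · interval_cases m
        · omega
        · left; exact ⟨rfl, rfl⟩
        · right; left; exact ⟨rfl, rfl⟩
      · right; right
        by_contra hcon
        push Not at hcon h5
        -- 4 D < 2 m n, D = m n - 2 n - 2 m
        have e2 : 5 * n ≤ m * n := Nat.mul_le_mul_right _ h5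
        have e3 : m * 20 ≤ m * n := Nat.mul_le_mul_left _ hcon
        have e4 : 2 * m * n = 2 * (m * n) := by ring
        -- mn < 4 (m + n); (m-4)(n-4) < 16
        obtain ⟨m', rfl⟩ : ∃ m', m = m' + 5 := ⟨m - 5, by omega⟩
        obtain ⟨n', rfl⟩ : ∃ n', n = n' + 20 := ⟨n - 20, by omega⟩
        nlinarith
    · -- l = 3
      right; right
      by_contra hcon
      push Not at hcon
      obtain ⟨m', rfl⟩ : ∃ m', m = m' + 3 := ⟨m - 3, by omega⟩
      obtain ⟨n', rfl⟩ : ∃ n', n = n' + 20 := ⟨n - 20, by omega⟩
      nlinarith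
  rcases hcase with ⟨rfl, rfl⟩ | ⟨rfl, rfl⟩ | hn19
  · refine tri_23 hp hodd hM hbig hT ?_
    linarith
  · refine tri_24 hp hodd hM (by omega) hT (by rw [← hNdef]; exact hcard) ?_
    linarith
  · exact tri_small hp hodd hM (by omega) hT (by omega) (by omega) hn19 heq0

lemma tri_all {G : Type u} [Group G] [Finite G] {p : ℕ} (hp : p.Prime) (hodd : Odd p) (hM : MM ∣ p + 1)
    (hbig : 6 * Nat.factorial 24 < p) {l m n : ℕ} (hT : Tri G l m n) (hcard : 16 * (p + 1) < Nat.card G)
    (hl : 2 ≤ l) (hm : 2 ≤ m) (hn : 2 ≤ n)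
    (heq : Nat.card G * (l * m * n) = 4 * p * (l * m * n) + Nat.card G * (m * n + l * n + l * m)) : False := by
  have key : ∀ l m n, Tri G l m n → 2 ≤ l → l ≤ m → m ≤ n →
      Nat.card G * (l * m * n) = 4 * p * (l * m * n) + Nat.card G * (m * n + l * n + l * m) → False :=
    fun l m n h h1 h2 h3 h4 => tri_sorted hp hodd hM hbig h hcard h1 h2 h3 h4
  rcases le_total l m with h1 | h1 <;> rcases le_total m n with h2 | h2 <;> rcases le_total l n with h3 | h3
  · exact key l m n hT hl h1 h2 heq
  · exact key l m n hT hl h1 h2 heq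
  · -- l ≤ n ≤ m
    refine key l n m hT.rot.swap.rot.rot hl h3 h2 ?_
    rw [show l * n * m = l * m * n by ring, show n * m + l * m + l * n = m * n + l * n + l * m by ring]; exact heq
  · -- n ≤ l ≤ m : 
    refine key n l m hT.rot.rot hn h3 h1 ?_
    rw [show n * l * m = l * m * n by ring, show l * m + n * m + n * l = m * n + l * n + l * m by ring]; exact heq
  · -- m ≤ l ≤ n
    refine key m l n hT.swap hm h1 h3 ?_
    rw [show m * l * n = l * m * n by ring, show l * n + m * n + m * l = m * n + l * n + l * m by ring]; exact heq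
  · -- m ≤ n ≤ l
    refine key m n l hT.rot hm h2 h3 ?_
    rw [show m * n * l = l * m * n by ring, show n * l + m * l + m * n = m * n + l * n + l * m by ring]; exact heq
  · -- n ≤ m ≤ l, l ≤ n : all equal
    refine key n m l (hT.swap.rot.rot) hn h2 h1 ?_
    rw [show n * m * l = l * m * n by ring, show m * l + n * l + n * m = m * n + l * n + l * m by ring]; exact heq
  · refine key n m l (hT.swap.rot.rot) hn h2 h1 ?_
    rw [show n * m * l = l * m * n by ring, show m * l + n * l + n * m = m * n + l * n + l * m by ring]; exact heq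

end Pool.Agent.H57R2.AM
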