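import Mathlib
import Pool.Agent.H57R2.AMTri2

set_option autoImplicit false

open scoped commutatorElement

namespace Pool.Agent.H57R2.AM

open Subgroup

universe u

/-- The finite group `G` is the group of deck transformations of a branched covering of closed
Riemann surfaces whose total space has genus `g`: generating vectors and the Riemann–Hurwitz formula. -/
def ActsOnGenus (G : Type u) [Group G] (g : ℕ) : Prop :=
  ∃ (h r : ℕ) (a b : Fin h → G) (x : Fin r → G),
    Subgroup.closure (Set.range a ∪ Set.range b ∪ Set.range x) = ⊤ ∧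
    (List.ofFn fun i => ⁅a i, b i⁆).prod * (List.ofFn x).prod = 1 ∧
    (∀ j, x j ≠ 1) ∧
    2 * (g : ℚ) - 2 = (Nat.card G : ℚ) * (2 * (h : ℚ) - 2 + ∑ j, (1 - 1 / (orderOf (x j) : ℚ)))

lemma four_cases (m0 m1 m2 m3 : ℕ) (h0 : 2 ≤ m0) (h1 : 2 ≤ m1) (h2 : 2 ≤ m2) (h3 : 2 ≤ m3)
    (hlo : 7 / 4 < 1 / (m0 : ℚ) + 1 / m1 + 1 / m2 + 1 / m3)
    (hhi : 1 / (m0 : ℚ) + 1 / m1 + 1 / m2 + 1 / m3 < 2) :
    (m0 = 3 ∧ m1 = 2 ∧ m2 = 2 ∧ m3 = 2) ∨ (m0 = 2 ∧ m1 = 3 ∧ m2 = 2 ∧ m3 = 2) ∨
    (m0 = 2 ∧ m1 = 2 ∧ m2 = 3 ∧ m3 = 2) ∨ (m0 = 2 ∧ m1 = 2 ∧ m2 = 2 ∧ m3 = 3) := by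
  have key : ∀ m : ℕ, 2 ≤ m → (m = 2 ∧ 1 / (m : ℚ) = 1 / 2) ∨ (m = 3 ∧ 1 / (m : ℚ) = 1 / 3) ∨ (1 / (m : ℚ) ≤ 1 / 4) := by
    intro m hm
    rcases Nat.lt_or_ge m 4 with h | h
    · interval_cases m
      · left; norm_num
      · right; left; norm_num
    · right; right
      have : (4 : ℚ) ≤ m := by exact_mod_cast h
      exact one_div_le_one_div_of_le (by norm_num) this
  rcases key m0 h0 with ⟨e0, q0⟩ | ⟨e0, q0⟩ | q0 <;> rcases key m1 h1 with ⟨e1, q1⟩ | ⟨e1, q1⟩ | q1 <;>
    rcases key m2 h2 with ⟨e2, q2⟩ | ⟨e2, q2⟩ | q2 <;> rcases key m3 h3 with ⟨e3, q3⟩ | ⟨e3, q3⟩ | q3 <;>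
    first
    | (exfalso; linarith)
    | (left; exact ⟨e0, e1, e2, e3⟩)
    | (right; left; exact ⟨e0, e1, e2, e3⟩)
    | (right; right; left; exact ⟨e0, e1, e2, e3⟩)
    | (right; right; right; exact ⟨e0, e1, e2, e3⟩)

lemma centralizes_of_order_three {G : Type u} [Group G] [Finite G] {p : ℕ} (hp : p.Prime) (hodd : Odd p)
    (P : Subgroup G) (hPc : Nat.card P = p) (g : G) (hg : orderOf g = 3) (hpm : PM P g) :
    ∀ u ∈ P, g * u = u * g := by
  rcases hpm with h | h
  · exact h
  · exfalso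
    obtain ⟨u, huP, hu⟩ := exists_ne_inv hp hodd P hPc
    apply hu
    have h3 : g * g * g = 1 := by
      have := pow_orderOf_eq_one g
      rw [hg] at this
      simpa [pow_succ, mul_assoc] using this
    have e : g * g * g * u = u⁻¹ * (g * g * g) := by
      calc g * g * g * u = g * (g * (g * u)) := by simp only [mul_assoc]
        _ = g * (g * (u⁻¹ * g)) := by rw [h u huP]
        _ = g * ((g * u⁻¹) * g) := by simp only [mul_assoc]
        _ = g * ((u * g) * g) := by rw [h _ (P.inv_mem huP), inv_inv]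
        _ = (g * u) * g * g := by simp only [mul_assoc]
        _ = (u⁻¹ * g) * g * g := by rw [h u huP]
        _ = u⁻¹ * (g * g * g) := by simp only [mul_assoc]
    rw [h3] at e
    simpa using e

lemma four_false {G : Type u} [Group G] [Finite G] {p : ℕ} (hp : p.Prime) (hodd : Odd p) (hM : MM ∣ p + 1)
    (hbig : 24 < p) (hcard : Nat.card G = p * 24) (x : Fin 4 → G)
    (hgen : Subgroup.closure (Set.range x) = ⊤) (hprod : x 0 * x 1 * x 2 * x 3 = 1)
    (i0 : Fin 4) (h3 : orderOf (x i0) = 3) (hle : ∀ i, orderOf (x i) ≤ 3) : False := by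
  obtain ⟨P, hPn, hPc, hco⟩ := exists_normal_sylow hp hcard hbig
  have hpm : ∀ i, PM P (x i) := fun i => PM_of_order hp hM P hPc _ ((hle i).trans (by norm_num))
  refine no_normal_sylow_four hp hodd P hPc hco x hgen hprod ?_ hpm i0
    (centralizes_of_order_three hp hodd P hPc _ h3 (hpm i0))
  intro i
  exact coprime_of_lt hp (orderOf_pos _) (by have := hle i; omega)

/-- The upper bound. -/
theorem card_le {G : Type u} [Group G] [Finite G] {p : ℕ} (hp : p.Prime) (hM : MM ∣ p + 1)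
    (hbig : 6 * Nat.factorial 24 < p) (hact : ActsOnGenus G (2 * p + 1)) : Nat.card G ≤ 16 * (p + 1) := by
  by_contra hcon
  push Not at hcon
  have hb : 27436 < 6 * Nat.factorial 24 := by decide
  have hodd : Odd p := hp.odd_of_ne_two (by omega)
  obtain ⟨h, r, a, b, x, hgen, hprod, hne, hRH⟩ := hact
  have hNpos : 0 < Nat.card G := Nat.card_pos
  have hNQ : (16 * ((p : ℚ) + 1)) < (Nat.card G : ℚ) := by exact_mod_cast hcon
  have hpQ : (0 : ℚ) < p := by exact_mod_cast hp.pos
  have hord : ∀ j, 2 ≤ orderOf (x j) := by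
    intro j
    have h1 := orderOf_pos (x j)
    have h2 : orderOf (x j) ≠ 1 := fun h => hne j (orderOf_eq_one_iff.mp h)
    omega
  obtain ⟨μ, hμ⟩ : ∃ μ : ℚ, μ = 2 * (h : ℚ) - 2 + ∑ j, (1 - 1 / (orderOf (x j) : ℚ)) := ⟨_, rfl⟩
  rw [← hμ] at hRH
  have hRH' : (4 : ℚ) * p = Nat.card G * μ := by
    rw [← hRH]; push_cast; ring
  have hNQ0 : (0 : ℚ) < Nat.card G := by exact_mod_cast hNpos
  have hμ0 : 0 < μ := by
    by_contra hc
    push Not at hc
    have : (Nat.card G : ℚ) * μ ≤ 0 := mul_nonpos_of_nonneg_of_nonpos hNQ0.le hc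
    linarith
  have hμ1 : μ < 1 / 4 := by
    by_contra hc
    push Not at hc
    have h1 : (Nat.card G : ℚ) * (1 / 4) ≤ Nat.card G * μ := mul_le_mul_of_nonneg_left hc hNQ0.le
    linarith
  have hterm : ∀ j, (1 : ℚ) / 2 ≤ 1 - 1 / (orderOf (x j) : ℚ) := by
    intro j
    have h1 : (2 : ℚ) ≤ orderOf (x j) := by exact_mod_cast hord j
    have h2 := one_div_le_one_div_of_le (by norm_num) h1
    linarith
  have hterm' : ∀ j, 1 - 1 / (orderOf (x j) : ℚ) ≤ 1 := by
    intro j
    have : (0 : ℚ) ≤ 1 / (orderOf (x j) : ℚ) := by positivity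
    linarith
  have hs1 : (r : ℚ) * (1 / 2) ≤ ∑ j, (1 - 1 / (orderOf (x j) : ℚ)) := by
    have := Finset.sum_le_sum (fun j (_ : j ∈ Finset.univ) => hterm j)
    simpa using this
  have hs2 : ∑ j, (1 - 1 / (orderOf (x j) : ℚ)) ≤ r := by
    have := Finset.sum_le_sum (fun j (_ : j ∈ Finset.univ) => hterm' j)
    simpa using this
  have hh : h = 0 := by
    by_contra hh
    have hh1 : 1 ≤ h := Nat.one_le_iff_ne_zero.mpr hh
    rcases Nat.eq_zero_or_pos r with hr | hr
    · subst hr
      simp only [Finset.univ_eq_empty, Finset.sum_empty, add_zero] at hμ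
      have h1 : (0 : ℚ) < 2 * h - 2 := by rw [← hμ]; exact hμ0
      have h2 : (2 : ℚ) * h - 2 < 1 / 4 := by rw [← hμ]; exact hμ1
      have h3 : (1 : ℚ) < h := by linarith
      have h4 : 1 < h := by exact_mod_cast h3
      have h5 : (2 : ℚ) ≤ h := by exact_mod_cast h4
      linarith
    · have h1 : (1 : ℚ) ≤ r := by exact_mod_cast hr
      have h2 : (1 : ℚ) ≤ h := by exact_mod_cast hh1
      linarith
  subst hh
  have hμ' : μ = -2 + ∑ j, (1 - 1 / (orderOf (x j) : ℚ)) := by rw [hμ]; push_cast; ring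
  have hr3 : 2 < r := by
    by_contra hc
    push Not at hc
    have : (r : ℚ) ≤ 2 := by exact_mod_cast hc
    linarith
  have hr5 : r < 5 := by
    by_contra hc
    push Not at hc
    have : (5 : ℚ) ≤ r := by exact_mod_cast hc
    linarith
  have hgen' : Subgroup.closure (Set.range x) = ⊤ := by
    rw [← hgen]; congr 1
    have ha : Set.range a = ∅ := Set.range_eq_empty a
    have hb : Set.range b = ∅ := Set.range_eq_empty b
    rw [ha, hb]; simp
  have hprod' : (List.ofFn x).prod = 1 := by simpa using hprod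
  clear hgen hprod hμ hs1 hs2
  interval_cases r
  · -- r = 3
    have hp3 : x 0 * x 1 * x 2 = 1 := by
      simpa [List.ofFn_succ, mul_assoc] using hprod'
    rw [Fin.sum_univ_three] at hμ'
    refine tri_all hp hodd hM hbig (l := orderOf (x 0)) (m := orderOf (x 1)) (n := orderOf (x 2))
      ⟨x, hgen', hp3, rfl, rfl, rfl⟩ hcon (hord 0) (hord 1) (hord 2) ?_
    have hl : (0 : ℚ) < orderOf (x 0) := by have := hord 0; positivity
    have hm : (0 : ℚ) < orderOf (x 1) := by have := hord 1; positivity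
    have hn : (0 : ℚ) < orderOf (x 2) := by have := hord 2; positivity
    rw [hμ'] at hRH'
    have hq : ((Nat.card G * (orderOf (x 0) * orderOf (x 1) * orderOf (x 2)) : ℕ) : ℚ) =
        ((4 * p * (orderOf (x 0) * orderOf (x 1) * orderOf (x 2)) + Nat.card G * (orderOf (x 1) * orderOf (x 2) +
          orderOf (x 0) * orderOf (x 2) + orderOf (x 0) * orderOf (x 1)) : ℕ) : ℚ) := by
      push_cast
      rw [hRH']
      field_simp
      ring
    exact_mod_cast hq
  · -- r = 4
    have hp4 : x 0 * x 1 * x 2 * x 3 = 1 := by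
      simpa [List.ofFn_succ, mul_assoc] using hprod'
    rw [Fin.sum_univ_four] at hμ'
    have hc := four_cases (orderOf (x 0)) (orderOf (x 1)) (orderOf (x 2)) (orderOf (x 3)) (hord 0) (hord 1) (hord 2)
      (hord 3) (by linarith) (by linarith)
    have hcardG : ∀ (i0 : Fin 4), orderOf (x i0) = 3 → (∀ i, i ≠ i0 → orderOf (x i) = 2) → μ = 1 / 6 → False := by
      intro i0 h3 h2 hμ6
      have hN : Nat.card G = p * 24 := by
        rw [hμ6] at hRH'
        have : (Nat.card G : ℚ) = ((p * 24 : ℕ) : ℚ) := by push_cast; linarith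
        exact_mod_cast this
      refine four_false hp hodd hM (by omega) hN x hgen' hp4 i0 h3 ?_
      intro i
      by_cases hi : i = i0
      · rw [hi, h3]
      · rw [h2 i hi]; norm_num
    rcases hc with ⟨e0, e1, e2, e3⟩ | ⟨e0, e1, e2, e3⟩ | ⟨e0, e1, e2, e3⟩ | ⟨e0, e1, e2, e3⟩
    · refine hcardG 0 e0 ?_ ?_
      · intro i hi; fin_cases i
        · exact absurd rfl hi
        · exact e1
        · exact e2
        · exact e3
      · rw [hμ', e0, e1, e2, e3]; norm_num
    · refine hcardG 1 e1 ?_ ?_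
      · intro i hi; fin_cases i
        · exact e0
        · exact absurd rfl hi
        · exact e2
        · exact e3
      · rw [hμ', e0, e1, e2, e3]; norm_num
    · refine hcardG 2 e2 ?_ ?_
      · intro i hi; fin_cases i
        · exact e0
        · exact e1
        · exact absurd rfl hi
        · exact e3
      · rw [hμ', e0, e1, e2, e3]; norm_num
    · refine hcardG 3 e3 ?_ ?_
      · intro i hi; fin_cases i
        · exact e0
        · exact e1
        · exact e2
        · exact absurd rfl hi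
      · rw [hμ', e0, e1, e2, e3]; norm_num

end Pool.Agent.H57R2.AM
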