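import Mathlib
import Pool.Agent.H57R2.AMUpper

set_option autoImplicit false

open scoped commutatorElement

namespace Pool.Agent.H57R2.AM

open Subgroup

/-- The Accola–Maclachlan group of order `8 (g + 1)`. -/
@[ext] structure AMG (g : ℕ) where
  i : ZMod (2 * g + 2)
  e : ZMod 2
  s : Bool

namespace AMG

variable {g : ℕ}

lemma two_dvd (g : ℕ) : 2 ∣ 2 * g + 2 := ⟨g + 1, by ring⟩

/-- parity -/
def par : ZMod (2 * g + 2) →+* ZMod 2 := ZMod.castHom (two_dvd g) (ZMod 2)

instance : Mul (AMG g) where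
  mul a b := ⟨if a.s then a.i - b.i else a.i + b.i, a.e + b.e + (if a.s then par b.i else 0), xor a.s b.s⟩

instance : One (AMG g) := ⟨⟨0, 0, false⟩⟩

instance : Inv (AMG g) where
  inv a := ⟨if a.s then a.i else -a.i, a.e + (if a.s then par a.i else 0), a.s⟩

lemma mul_def (a b : AMG g) : a * b =
    ⟨if a.s then a.i - b.i else a.i + b.i, a.e + b.e + (if a.s then par b.i else 0), xor a.s b.s⟩ := rfl

lemma one_def : (1 : AMG g) = ⟨0, 0, false⟩ := rfl

lemma inv_def (a : AMG g) : a⁻¹ = ⟨if a.s then a.i else -a.i, a.e + (if a.s then par a.i else 0), a.s⟩ := rfl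

lemma zmod2_add_self (x : ZMod 2) : x + x = 0 := by revert x; decide

lemma zmod2_neg (x : ZMod 2) : -x = x := by revert x; decide

instance : Group (AMG g) :=
  Group.ofLeftAxioms
    (by
      rintro ⟨i, e, s⟩ ⟨i', e', s'⟩ ⟨i'', e'', s''⟩
      simp only [mul_def]
      have h2 : par i'' * 2 = 0 := by
        have : (2 : ZMod 2) = 0 := by decide
        rw [this, mul_zero]
      cases s <;> cases s' <;> simp [map_add, sub_eq_add_neg] <;> constructor <;> try ring1
      linear_combination -h2)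
    (by
      rintro ⟨i, e, s⟩
      simp [mul_def, one_def])
    (by
      rintro ⟨i, e, s⟩
      simp only [mul_def, one_def, inv_def]
      cases s
      · simp [zmod2_add_self]
      · simp
        have := zmod2_add_self (par i)
        have h2 := zmod2_add_self e
        linear_combination this + h2)

/-- underlying set -/
def equivProd : AMG g ≃ ZMod (2 * g + 2) × ZMod 2 × Bool where
  toFun a := (a.i, a.e, a.s)
  invFun t := ⟨t.1, t.2.1, t.2.2⟩
  left_inv _ := rfl
  right_inv _ := rfl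

instance : Finite (AMG g) := Finite.of_equiv _ (equivProd (g := g)).symm

lemma card_eq : Nat.card (AMG g) = 8 * (g + 1) := by
  rw [Nat.card_congr equivProd, Nat.card_prod, Nat.card_prod, Nat.card_zmod, Nat.card_zmod]
  simp
  ring

/-- generator of order two -/
def X : AMG g := ⟨0, 0, true⟩
/-- generator of order four -/
def Y : AMG g := ⟨-1, 1, true⟩
/-- the element of order `2 g + 2` -/
def Z : AMG g := ⟨1, 0, false⟩
/-- the central involution -/
def U : AMG g := ⟨0, 1, false⟩

lemma XY : (X * Y : AMG g) = Z := by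
  simp only [X, Y, Z, mul_def, map_neg, map_one]
  ext <;> simp
  decide

lemma YY : (Y * Y : AMG g) = U := by
  simp only [Y, U, mul_def, map_neg, map_one]
  ext <;> simp
  decide

lemma XX : (X * X : AMG g) = 1 := by
  simp [X, mul_def, one_def]

lemma UU : (U * U : AMG g) = 1 := by
  simp only [U, mul_def, one_def]
  ext <;> simp
  decide

lemma Z_pow (k : ℕ) : (Z : AMG g) ^ k = ⟨k, 0, false⟩ := by
  induction k with
  | zero => simp [one_def]
  | succ k ih => rw [pow_succ, ih]; simp [Z, mul_def]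

lemma order_Z : orderOf (Z : AMG g) = 2 * g + 2 := by
  apply Nat.dvd_antisymm
  · apply orderOf_dvd_of_pow_eq_one
    rw [Z_pow, one_def]
    have : ((2 * g + 2 : ℕ) : ZMod (2 * g + 2)) = 0 := ZMod.natCast_self _
    rw [this]
  · have h := pow_orderOf_eq_one (Z : AMG g)
    rw [Z_pow, one_def, AMG.mk.injEq] at h
    exact (ZMod.natCast_eq_zero_iff _ _).mp h.1

lemma order_X : orderOf (X : AMG g) = 2 := by
  apply orderOf_eq_prime
  · rw [pow_two]; exact XX
  · intro h
    have := congrArg AMG.s h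
    simp [X, one_def] at this

lemma order_Y : orderOf (Y : AMG g) = 4 := by
  have : (4 : ℕ) = 2 ^ (1 + 1) := by norm_num
  rw [this]
  apply orderOf_eq_prime_pow
  · rw [pow_one, pow_two, YY]
    intro h
    have := congrArg AMG.e h
    simp [U, one_def] at this
  · show Y ^ 4 = 1
    have : (Y : AMG g) ^ 4 = (Y * Y) * (Y * Y) := by simp only [pow_succ, pow_zero, one_mul, mul_assoc]
    rw [this, YY, UU]

lemma gen : Subgroup.closure ({X, Y} : Set (AMG g)) = ⊤ := by
  rw [eq_top_iff]
  intro a _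
  set C := Subgroup.closure ({X, Y} : Set (AMG g)) with hC
  have hX : X ∈ C := Subgroup.subset_closure (by simp)
  have hY : Y ∈ C := Subgroup.subset_closure (by simp)
  have hZ : Z ∈ C := by rw [← XY]; exact C.mul_mem hX hY
  have hU : U ∈ C := by rw [← YY]; exact C.mul_mem hY hY
  obtain ⟨i, e, s⟩ := a
  have hi : (⟨i, 0, false⟩ : AMG g) ∈ C := by
    have : NeZero (2 * g + 2) := ⟨by omega⟩
    have h1 : (⟨i, 0, false⟩ : AMG g) = Z ^ (i.val) := by rw [Z_pow, ZMod.natCast_zmod_val]
    rw [h1]; exact C.pow_mem hZ _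
  have hie : (⟨i, e, false⟩ : AMG g) ∈ C := by
    have he : e = 0 ∨ e = 1 := by
      have : ∀ e : ZMod 2, e = 0 ∨ e = 1 := by decide
      exact this e
    rcases he with rfl | rfl
    · exact hi
    · have h1 : (⟨i, 1, false⟩ : AMG g) = ⟨i, 0, false⟩ * U := by simp [U, mul_def]
      rw [h1]; exact C.mul_mem hi hU
  cases s
  · exact hie
  · have h1 : (⟨i, e, true⟩ : AMG g) = ⟨i, e, false⟩ * X := by simp [X, mul_def]
    rw [h1]; exact C.mul_mem hie hX

end AMG

theorem amg_acts (g : ℕ) : ActsOnGenus (AMG g) g := by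
  refine ⟨0, 3, Fin.elim0, Fin.elim0, ![AMG.X, AMG.Y, (AMG.X * AMG.Y)⁻¹], ?_, ?_, ?_, ?_⟩
  · rw [eq_top_iff, ← AMG.gen, Subgroup.closure_le]
    rintro a (rfl | rfl)
    · exact Subgroup.subset_closure (Or.inr ⟨0, rfl⟩)
    · exact Subgroup.subset_closure (Or.inr ⟨1, rfl⟩)
  · simp [List.ofFn_succ]
  · intro j
    fin_cases j
    · intro h
      have h1 := (AMG.order_X (g := g))
      have h2 : (AMG.X : AMG g) = 1 := h
      rw [h2, orderOf_one] at h1; omega
    · intro h
      have h1 := (AMG.order_Y (g := g))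
      have h2 : (AMG.Y : AMG g) = 1 := h
      rw [h2, orderOf_one] at h1; omega
    · intro h
      have h1 := (AMG.order_Z (g := g))
      have h2 : ((AMG.X * AMG.Y : AMG g))⁻¹ = 1 := h
      rw [AMG.XY, inv_eq_one] at h2
      rw [h2, orderOf_one] at h1; omega
  · rw [Fin.sum_univ_three, AMG.card_eq]
    have e0 : orderOf ((![AMG.X, AMG.Y, (AMG.X * AMG.Y)⁻¹] : Fin 3 → AMG g) 0) = 2 := AMG.order_X
    have e1 : orderOf ((![AMG.X, AMG.Y, (AMG.X * AMG.Y)⁻¹] : Fin 3 → AMG g) 1) = 4 := AMG.order_Y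
    have e2 : orderOf ((![AMG.X, AMG.Y, (AMG.X * AMG.Y)⁻¹] : Fin 3 → AMG g) 2) = 2 * g + 2 := by
      show orderOf ((AMG.X * AMG.Y : AMG g))⁻¹ = 2 * g + 2
      rw [orderOf_inv, AMG.XY, AMG.order_Z]
    rw [e0, e1, e2]
    push_cast
    have : (2 * (g : ℚ) + 2) ≠ 0 := by positivity
    field_simp
    ring

end Pool.Agent.H57R2.AM
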