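import Mathlib
import Pool.Agent.H57R2.AMLower

set_option autoImplicit false

open scoped commutatorElement

namespace Pool.Agent.H57R2.AM

/-- the orders of the finite groups acting in genus `g` -/
def groupOrders (g : ℕ) : Set ℕ :=
  {n | ∃ (G : Type) (_ : Group G), Finite G ∧ ActsOnGenus G g ∧ Nat.card G = n}

/-- the largest such order -/
noncomputable def maxOrder (g : ℕ) : ℕ := sSup (groupOrders g)

lemma groupOrders_nonempty (g : ℕ) : 8 * (g + 1) ∈ groupOrders g :=
  ⟨AMG g, inferInstance, inferInstance, amg_acts g, AMG.card_eq⟩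

lemma sum_three_le (l m n : ℕ) (hl : 2 ≤ l) (hlm : l ≤ m) (hmn : m ≤ n)
    (h : 1 / (l : ℚ) + 1 / m + 1 / n < 1) : 1 / (l : ℚ) + 1 / m + 1 / n ≤ 41 / 42 := by
  have key : ∀ (k a : ℕ), 0 < k → k ≤ a → 1 / (a : ℚ) ≤ 1 / k := by
    intro k a hk hka
    exact one_div_le_one_div_of_le (by exact_mod_cast hk) (by exact_mod_cast hka)
  have hn0 : (0 : ℚ) < n := by exact_mod_cast (by omega : 0 < n)
  rcases Nat.lt_or_ge l 4 with h4 | h4
  · interval_cases l
    · -- l = 2
      rcases Nat.lt_or_ge m 5 with h5 | h5
      · interval_cases m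
        · exfalso
          have : (0 : ℚ) < 1 / n := by positivity
          norm_num at h
          linarith
        · have h7 : 7 ≤ n := by
            by_contra hc
            push Not at hc
            have := key n 6 (by omega) (by omega)
            norm_num at h this
            linarith
          have := key 7 n (by norm_num) h7
          norm_num at this ⊢
          linarith
        · have h7 : 5 ≤ n := by
            by_contra hc
            push Not at hc
            have := key n 4 (by omega) (by omega)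
            norm_num at h this
            linarith
          have := key 5 n (by norm_num) h7
          norm_num at this ⊢
          linarith
      · have h1 := key 5 m (by norm_num) h5
        have h2 := key 5 n (by norm_num) (h5.trans hmn)
        norm_num at h1 h2 ⊢
        linarith
    · -- l = 3
      rcases Nat.lt_or_ge m 4 with h5 | h5
      · interval_cases m
        have h7 : 4 ≤ n := by
          by_contra hc
          push Not at hc
          have := key n 3 (by omega) (by omega)
          norm_num at h this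
          linarith
        have := key 4 n (by norm_num) h7
        norm_num at this ⊢
        linarith
      · have h1 := key 4 m (by norm_num) h5
        have h2 := key 4 n (by norm_num) (h5.trans hmn)
        norm_num at h1 h2 ⊢
        linarith
  · have h0 := key 4 l (by norm_num) h4
    have h1 := key 4 m (by norm_num) (h4.trans hlm)
    have h2 := key 4 n (by norm_num) (h4.trans (hlm.trans hmn))
    norm_num at h0 h1 h2 ⊢
    linarith

lemma sum_three_le' (l m n : ℕ) (hl : 2 ≤ l) (hm : 2 ≤ m) (hn : 2 ≤ n)
    (h : 1 / (l : ℚ) + 1 / m + 1 / n < 1) : 1 / (l : ℚ) + 1 / m + 1 / n ≤ 41 / 42 := by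
  rcases le_total l m with h1 | h1 <;> rcases le_total m n with h2 | h2 <;> rcases le_total l n with h3 | h3
  · exact sum_three_le l m n hl h1 h2 h
  · exact sum_three_le l m n hl h1 h2 h
  · have := sum_three_le l n m hl h3 h2 (by linarith); linarith
  · have := sum_three_le n l m hn h3 h1 (by linarith); linarith
  · have := sum_three_le m l n hm h1 h3 (by linarith); linarith
  · have := sum_three_le m n l hm h2 h3 (by linarith); linarith
  · have := sum_three_le n m l hn h2 h1 (by linarith); linarith
  · have := sum_three_le n m l hn h2 h1 (by linarith); linarith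

/-- Hurwitz' bound -/
lemma hurwitz {G : Type} [Group G] [Finite G] {g : ℕ} (hg : 2 ≤ g) (hact : ActsOnGenus G g) :
    Nat.card G ≤ 84 * (g - 1) := by
  obtain ⟨h, r, a, b, x, -, -, hne, hRH⟩ := hact
  have hNpos : 0 < Nat.card G := Nat.card_pos
  have hgQ : (2 : ℚ) ≤ g := by exact_mod_cast hg
  have hord : ∀ j, 2 ≤ orderOf (x j) := by
    intro j
    have h1 := orderOf_pos (x j)
    have h2 : orderOf (x j) ≠ 1 := fun h => hne j (orderOf_eq_one_iff.mp h)
    omega
  obtain ⟨μ, hμ⟩ : ∃ μ : ℚ, μ = 2 * (h : ℚ) - 2 + ∑ j, (1 - 1 / (orderOf (x j) : ℚ)) := ⟨_, rfl⟩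
  rw [← hμ] at hRH
  have hNQ0 : (0 : ℚ) < Nat.card G := by exact_mod_cast hNpos
  have hμ0 : 0 < μ := by
    by_contra hc
    push Not at hc
    have : (Nat.card G : ℚ) * μ ≤ 0 := mul_nonpos_of_nonneg_of_nonpos hNQ0.le hc
    linarith
  suffices hμ42 : 1 / 42 ≤ μ by
    have h1 : (Nat.card G : ℚ) * (1 / 42) ≤ Nat.card G * μ := mul_le_mul_of_nonneg_left hμ42 hNQ0.le
    have h2 : (Nat.card G : ℚ) ≤ ((84 * (g - 1) : ℕ) : ℚ) := by
      rw [Nat.cast_mul, Nat.cast_sub (by omega)]
      push_cast
      linarith
    exact_mod_cast h2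
  have hterm : ∀ j, (1 : ℚ) / 2 ≤ 1 - 1 / (orderOf (x j) : ℚ) := by
    intro j
    have h1 : (2 : ℚ) ≤ orderOf (x j) := by exact_mod_cast hord j
    have h2 := one_div_le_one_div_of_le (by norm_num) h1
    linarith
  have hterm' : ∀ j, 1 - 1 / (orderOf (x j) : ℚ) ≤ 1 := by
    intro j
    have : (0 : ℚ) ≤ 1 / (orderOf (x j) : ℚ) := by positivity
    linarith
  have hs1 : (r : ℚ) * (1 / 2) ≤ ∑ j, (1 - 1 / (orderOf (x j) : ℚ)) := by
    have := Finset.sum_le_sum (fun j (_ : j ∈ Finset.univ) => hterm j)
    simpa using this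
  have hs2 : ∑ j, (1 - 1 / (orderOf (x j) : ℚ)) ≤ r := by
    have := Finset.sum_le_sum (fun j (_ : j ∈ Finset.univ) => hterm' j)
    simpa using this
  rcases Nat.eq_zero_or_pos h with hh | hh1
  · subst hh
    have hμ' : μ = -2 + ∑ j, (1 - 1 / (orderOf (x j) : ℚ)) := by rw [hμ]; push_cast; ring
    have hr3 : 2 < r := by
      by_contra hc
      push Not at hc
      have : (r : ℚ) ≤ 2 := by exact_mod_cast hc
      linarith
    rcases Nat.lt_or_ge r 5 with hr5 | hr5
    · clear hs1 hs2 hμ
      interval_cases r
      · rw [Fin.sum_univ_three] at hμ'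
        have := sum_three_le' (orderOf (x 0)) (orderOf (x 1)) (orderOf (x 2)) (hord 0) (hord 1) (hord 2) (by linarith)
        linarith
      · rw [Fin.sum_univ_four] at hμ'
        have key : ∀ j, 1 / (orderOf (x j) : ℚ) = 1 / 2 ∨ 1 / (orderOf (x j) : ℚ) ≤ 1 / 3 := by
          intro j
          rcases (hord j).eq_or_lt with h2 | h2
          · left; rw [← h2]; norm_num
          · right
            have : (3 : ℚ) ≤ orderOf (x j) := by exact_mod_cast h2
            exact one_div_le_one_div_of_le (by norm_num) this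
        have k0 := hterm 0
        have k1 := hterm 1
        have k2 := hterm 2
        have k3 := hterm 3
        rcases key 0 with q0 | q0 <;> rcases key 1 with q1 | q1 <;> rcases key 2 with q2 | q2 <;>
          rcases key 3 with q3 | q3 <;> linarith
    · have : (5 : ℚ) ≤ r := by exact_mod_cast hr5
      linarith
  · have h2 : (1 : ℚ) ≤ h := by exact_mod_cast hh1
    rcases Nat.eq_zero_or_pos r with hr | hr
    · subst hr
      simp only [Finset.univ_eq_empty, Finset.sum_empty, add_zero] at hμ
      have h1 : (0 : ℚ) < 2 * h - 2 := by rw [← hμ]; exact hμ0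
      have h3 : (1 : ℚ) < h := by linarith
      have h4 : 1 < h := by exact_mod_cast h3
      have h5 : (2 : ℚ) ≤ h := by exact_mod_cast h4
      linarith
    · have h1 : (1 : ℚ) ≤ r := by exact_mod_cast hr
      linarith

lemma bddAbove_groupOrders {g : ℕ} (hg : 2 ≤ g) : BddAbove (groupOrders g) := by
  refine ⟨84 * (g - 1), ?_⟩
  rintro n ⟨G, _, hfin, hact, rfl⟩
  exact hurwitz hg hact

theorem isGreatest_maxOrder {g : ℕ} (hg : 2 ≤ g) : IsGreatest (groupOrders g) (maxOrder g) :=
  ⟨Nat.sSup_mem ⟨_, groupOrders_nonempty g⟩ (bddAbove_groupOrders hg),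
    fun _ hn => le_csSup (bddAbove_groupOrders hg) hn⟩

theorem maxOrder_eq {p : ℕ} (hp : p.Prime) (hM : MM ∣ p + 1) (hbig : 6 * Nat.factorial 24 < p) :
    maxOrder (2 * p + 1) = 8 * ((2 * p + 1) + 1) := by
  have hp2 := hp.two_le
  apply le_antisymm
  · obtain ⟨G, _, hfin, hact, hc⟩ := (isGreatest_maxOrder (g := 2 * p + 1) (by omega)).1
    rw [← hc]
    have := card_le hp hM hbig hact
    omega
  · exact (isGreatest_maxOrder (g := 2 * p + 1) (by omega)).2 (groupOrders_nonempty _)

end Pool.Agent.H57R2.AM
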