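import Mathlib
import Pool.Agent.H57R2.AMFinal

set_option autoImplicit false

namespace Pool.Agent.H57R2.AM

open ArithmeticFunction Filter

/-- If a set of naturals contains `2p+1` for all large primes `p ≡ -1 (mod MM)`, then `∑ g ^ (-s)` over
it diverges for `s < 1`. -/
lemma not_summable_of_primes (H : Set ℕ) [DecidablePred (· ∈ H)] (B : ℕ)
    (hH : ∀ p : ℕ, p.Prime → MM ∣ p + 1 → B < p → 2 * p + 1 ∈ H) (s : ℝ) (hs : s < 1) :
    ¬ Summable (fun g : ℕ => if g ∈ H then ((g : ℝ)) ^ (-s) else 0) := by
  intro hsum
  have : NeZero MM := ⟨by unfold MM; norm_num⟩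
  have hunit : IsUnit (-1 : ZMod MM) := isUnit_one.neg
  apply ArithmeticFunction.vonMangoldt.not_summable_residueClass_prime_div hunit
  -- wlog `0 < s`; replace `s` by `max s (1/2)`
  set t : ℝ := max s (1 / 2) with ht
  have ht1 : t < 1 := max_lt hs (by norm_num)
  have ht0 : 0 < t := lt_of_lt_of_le (by norm_num) (le_max_right _ _)
  have hsumt : Summable (fun g : ℕ => if g ∈ H then ((g : ℝ)) ^ (-t) else 0) := by
    refine Summable.of_nonneg_of_le ?_ ?_ hsum
    · intro g; split_ifs <;> positivity
    · intro g
      split_ifs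
      · rcases Nat.eq_zero_or_pos g with h | h
        · subst h
          rcases eq_or_ne s 0 with h0 | h0
          · rw [h0]
            have : (-t) ≠ 0 := by
              have := ht0
              exact neg_ne_zero.mpr this.ne'
            rw [Nat.cast_zero, Real.zero_rpow this]
            simp
          · have : (-t) ≠ 0 := by intro h'; linarith
            rw [Nat.cast_zero, Real.zero_rpow this]
            positivity
        · apply Real.rpow_le_rpow_of_exponent_le
          · exact_mod_cast h
          · have := le_max_left s (1 / 2); linarith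
      · exact le_refl _
  have hinj : Function.Injective (fun n : ℕ => 2 * n + 1) := fun a b h => by
    simp only at h; omega
  have hsum2 := (hsumt.comp_injective hinj).mul_left (1 / (1 - t) * 3 ^ t)
  refine Summable.of_norm_bounded_eventually_nat hsum2 ?_
  filter_upwards [eventually_gt_atTop (max B 1)] with n hn
  have hnB : B < n := lt_of_le_of_lt (le_max_left _ _) hn
  have hn1 : 1 < n := lt_of_le_of_lt (le_max_right _ _) hn
  have hn0 : (0 : ℝ) < n := by exact_mod_cast (by omega : 0 < n)
  have hrhs : 0 ≤ 1 / (1 - t) * 3 ^ t *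
      ((fun g : ℕ => if g ∈ H then ((g : ℝ)) ^ (-t) else 0) ∘ fun n : ℕ => 2 * n + 1) n := by
    have h1t : 0 < 1 - t := by linarith
    simp only [Function.comp]
    split_ifs <;> positivity
  by_cases hp : n.Prime
  · by_cases hr : (n : ZMod MM) = -1
    · have hdvd : MM ∣ n + 1 := by
        have h1 : ((n + 1 : ℕ) : ZMod MM) = 0 := by push_cast; rw [hr]; ring
        exact (ZMod.natCast_eq_zero_iff _ _).mp h1
      have hmem := hH n hp hdvd hnB
      rw [if_pos hp]
      have hres : ArithmeticFunction.vonMangoldt.residueClass (-1 : ZMod MM) n = Real.log n := by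
        unfold ArithmeticFunction.vonMangoldt.residueClass
        rw [Set.indicator_of_mem (by exact hr), ArithmeticFunction.vonMangoldt_apply_prime hp]
      rw [hres, Real.norm_of_nonneg (by
        have : 0 ≤ Real.log n := Real.log_natCast_nonneg n
        positivity)]
      simp only [Function.comp, if_pos hmem]
      have h1t : 0 < 1 - t := by linarith
      have hlog : Real.log n ≤ (n : ℝ) ^ (1 - t) / (1 - t) := Real.log_le_rpow_div hn0.le h1t
      have h2 : Real.log n / n ≤ (1 / (1 - t)) * (n : ℝ) ^ (-t) := by
        rw [div_le_iff₀ hn0]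
        calc Real.log n ≤ (n : ℝ) ^ (1 - t) / (1 - t) := hlog
          _ = 1 / (1 - t) * (n : ℝ) ^ (-t) * n := by
            have : (n : ℝ) ^ (1 - t) = (n : ℝ) ^ (-t) * n := by
              rw [show (1 - t) = -t + 1 by ring, Real.rpow_add_one hn0.ne']
            rw [this]; ring
      refine h2.trans ?_
      rw [mul_assoc]
      apply mul_le_mul_of_nonneg_left _ (by positivity)
      have h3 : ((2 * n + 1 : ℕ) : ℝ) ≤ 3 * n := by
        have : 2 * n + 1 ≤ 3 * n := by omega
        exact_mod_cast this
      have h4 : (0 : ℝ) < ((2 * n + 1 : ℕ) : ℝ) := by positivity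
      have h5 : ((3 : ℝ) * n) ^ (-t) ≤ ((2 * n + 1 : ℕ) : ℝ) ^ (-t) :=
        Real.rpow_le_rpow_of_nonpos h4 h3 (by linarith)
      calc (n : ℝ) ^ (-t) = 3 ^ t * ((3 : ℝ) * n) ^ (-t) := by
            rw [Real.mul_rpow (by norm_num) hn0.le, ← mul_assoc, ← Real.rpow_add (by norm_num)]
            simp
        _ ≤ 3 ^ t * ((2 * n + 1 : ℕ) : ℝ) ^ (-t) := mul_le_mul_of_nonneg_left h5 (by positivity)
    · rw [if_pos hp]
      have hres : ArithmeticFunction.vonMangoldt.residueClass (-1 : ZMod MM) n = 0 := by
        unfold ArithmeticFunction.vonMangoldt.residueClass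
        rw [Set.indicator_of_notMem (by exact hr)]
      rw [hres, zero_div, norm_zero]
      exact hrhs
  · rw [if_neg hp, zero_div, norm_zero]
    exact hrhs

end Pool.Agent.H57R2.AM
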